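import Mathlib

set_option autoImplicit false

/-! Entire solutions of `u_11 u_22 = 1` in the plane: definitions. -/

namespace Pool.Agent.H629R2.EU

open MeasureTheory Set

/-- Partial derivative in the first variable. -/
noncomputable def dx (f : ℝ × ℝ → ℝ) (p : ℝ × ℝ) : ℝ := fderiv ℝ f p (1, 0)

/-- Partial derivative in the second variable. -/
noncomputable def dy (f : ℝ × ℝ → ℝ) (p : ℝ × ℝ) : ℝ := fderiv ℝ f p (0, 1)

/-- Coordinate-convex entire solutions of `u_11 u_22 = 1` of class `C^2`. -/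
def EntireSol (u : ℝ × ℝ → ℝ) : Prop :=
  ContDiff ℝ 2 u ∧ (∀ p, 0 ≤ dx (dx u) p) ∧ (∀ p, 0 ≤ dy (dy u) p) ∧
    ∀ p, dx (dx u) p * dy (dy u) p = 1

/-- `u` is a polynomial of degree at most two. -/
def IsQuad (u : ℝ × ℝ → ℝ) : Prop :=
  ∃ a b c d e f : ℝ, ∀ x y : ℝ,
    u (x, y) = a * x ^ 2 + b * (x * y) + c * y ^ 2 + d * x + e * y + f

/-- Difference quotient in the first variable. -/
noncomputable def qx (h : ℝ) (u : ℝ × ℝ → ℝ) (p : ℝ × ℝ) : ℝ := (u (p.1 + h, p.2) - u p) / h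

/-- Difference quotient in the second variable. -/
noncomputable def qy (h : ℝ) (u : ℝ × ℝ → ℝ) (p : ℝ × ℝ) : ℝ := (u (p.1, p.2 + h) - u p) / h

end Pool.Agent.H629R2.EU
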