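import Mathlib
import Pool.Agent.H629R2.EU.Defs

set_option autoImplicit false

namespace Pool.Agent.H629R2.EU

open MeasureTheory Set

/-- CUT: cut-off functions of small Dirichlet energy. -/
def CUT_stmt : Prop :=
  ∀ R ε : ℝ, 0 < ε → ∃ η : ℝ × ℝ → ℝ, ContDiff ℝ 1 η ∧ HasCompactSupport η ∧
    (∀ p, 0 ≤ η p) ∧ (∀ p, η p ≤ 1) ∧ (∀ p : ℝ × ℝ, |p.1| ≤ R → |p.2| ≤ R → η p = 1) ∧
    ∫ p, (dx η p ^ 2 + dy η p ^ 2) ≤ ε

/-- NUL: the Jacobian is a null Lagrangian, `C^1` version. -/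
def NUL_stmt : Prop :=
  ∀ ψ B : ℝ × ℝ → ℝ, ContDiff ℝ 1 ψ → HasCompactSupport ψ → ContDiff ℝ 1 B →
    ∫ p, dx ψ p * dy B p = ∫ p, dy ψ p * dx B p

/-- TEL: functions with small difference quotients are constant in the first variable. -/
def TEL_stmt : Prop :=
  ∀ (f : ℝ × ℝ → ℝ) (a b c d : ℝ), Continuous f →
    (∀ ε : ℝ, 0 < ε → ∃ h0 : ℝ, 0 < h0 ∧ ∀ h : ℝ, 0 < h → h < h0 →
      ∫ p in Icc a b ×ˢ Icc c d, (qx h f p) ^ 2 ≤ ε) →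
    ∀ x x' y : ℝ, x ∈ Ioo a b → x' ∈ Ioo a b → y ∈ Ioo c d → f (x, y) = f (x', y)

/-- TELY: functions with small difference quotients are constant in the second variable. -/
def TELY_stmt : Prop :=
  ∀ (f : ℝ × ℝ → ℝ) (a b c d : ℝ), Continuous f →
    (∀ ε : ℝ, 0 < ε → ∃ h0 : ℝ, 0 < h0 ∧ ∀ h : ℝ, 0 < h → h < h0 →
      ∫ p in Icc a b ×ˢ Icc c d, (qy h f p) ^ 2 ≤ ε) →
    ∀ x y y' : ℝ, x ∈ Ioo a b → y ∈ Ioo c d → y' ∈ Ioo c d → f (x, y) = f (x, y')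

/-- UNI: uniform convergence of difference quotients on boxes. -/
def UNI_stmt : Prop :=
  ∀ (g : ℝ × ℝ → ℝ) (R ε : ℝ), ContDiff ℝ 1 g → 0 < ε →
    ∃ h0 : ℝ, 0 < h0 ∧ ∀ h : ℝ, 0 < h → h < h0 → ∀ p : ℝ × ℝ, |p.1| ≤ R → |p.2| ≤ R →
      |qx h g p - dx g p| ≤ ε ∧ |qy h g p - dy g p| ≤ ε ∧
      |g (p.1 + h, p.2) - g p| ≤ ε ∧ |g (p.1, p.2 + h) - g p| ≤ ε

/-- UNC: uniform continuity on boxes for continuous functions. -/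
def UNC_stmt : Prop :=
  ∀ (g : ℝ × ℝ → ℝ) (R ε : ℝ), Continuous g → 0 < ε →
    ∃ h0 : ℝ, 0 < h0 ∧ ∀ h : ℝ, 0 < h → h < h0 → ∀ p : ℝ × ℝ, |p.1| ≤ R → |p.2| ≤ R →
      |g (p.1 + h, p.2) - g p| ≤ ε ∧ |g (p.1, p.2 + h) - g p| ≤ ε

/-- CAL: calculus for the difference quotients of a `C^2` function. -/
def CAL_stmt : Prop :=
  ∀ (u : ℝ × ℝ → ℝ) (h : ℝ), ContDiff ℝ 2 u → h ≠ 0 →
    ContDiff ℝ 2 (qx h u) ∧ ContDiff ℝ 2 (qy h u) ∧ ContDiff ℝ 1 (dx u) ∧ ContDiff ℝ 1 (dy u) ∧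
    (∀ p, dx (dy u) p = dy (dx u) p) ∧
    dx (qx h u) = qx h (dx u) ∧ dy (qx h u) = qx h (dy u) ∧
    dx (qy h u) = qy h (dx u) ∧ dy (qy h u) = qy h (dy u) ∧
    dx (dx (qx h u)) = qx h (dx (dx u)) ∧ dy (dy (qx h u)) = qx h (dy (dy u)) ∧
    dx (dy (qx h u)) = qx h (dx (dy u)) ∧
    dx (dx (qy h u)) = qy h (dx (dx u)) ∧ dy (dy (qy h u)) = qy h (dy (dy u)) ∧
    dx (dy (qy h u)) = qy h (dx (dy u))

/-- ENE: the energy inequality (from NUL). `P'` is the derivative of `P`, `k` that of `Q`. -/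
def ENE_stmt : Prop :=
  ∀ (v η : ℝ × ℝ → ℝ) (P P' Q k : ℝ → ℝ) (K M : ℝ), ContDiff ℝ 2 v → ContDiff ℝ 1 η →
    HasCompactSupport η →
    (∀ t, HasDerivAt P (P' t) t) → Continuous P' → (∀ t, HasDerivAt Q (k t) t) → Continuous k →
    (∀ t, 0 ≤ k t) → (∀ t, k t ≤ M) → 0 ≤ K →
    (∀ p, η p ≠ 0 → k (dx v p) ≠ 0 →
      0 ≤ P' (dy v p) * (dx (dy v) p ^ 2 - dx (dx v) p * dy (dy v) p) ∧
      P (dy v p) ^ 2 * (dx (dy v) p ^ 2 + dx (dx v) p ^ 2) ≤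
        K * (P' (dy v p) * (dx (dy v) p ^ 2 - dx (dx v) p * dy (dy v) p))) →
    ∫ p, η p ^ 2 * (P' (dy v p) * k (dx v p) *
        (dx (dy v) p ^ 2 - dx (dx v) p * dy (dy v) p)) ≤
      4 * K * M * ∫ p, (dx η p ^ 2 + dy η p ^ 2)

/-- LOC: local constancy in the first variable near a point whose `u_11` lies in the
`u_11`-interval of an omitted rectangle. -/
def LOC_stmt : Prop :=
  ∀ (u : ℝ × ℝ → ℝ) (a1 a2 b0 δ : ℝ), EntireSol u → 0 < a1 → a1 < a2 → 0 < δ →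
    (∀ p, a1 < dx (dx u) p → dx (dx u) p < a2 → 2 * δ ≤ |dx (dy u) p - b0|) →
    ∀ z0 : ℝ × ℝ, a1 < dx (dx u) z0 → dx (dx u) z0 < a2 →
      ∃ r : ℝ, 0 < r ∧ ∀ x x' y : ℝ, |x - z0.1| < r → |x' - z0.1| < r → |y - z0.2| < r →
        dx (dx u) (x, y) = dx (dx u) (x', y) ∧ dx (dy u) (x, y) = dx (dy u) (x', y)

/-- LOB: if `u_11` is bounded away from zero then `u_11` and `u_12` do not depend on the second
variable. -/
def LOB_stmt : Prop :=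
  ∀ (u : ℝ × ℝ → ℝ) (c : ℝ), EntireSol u → 0 < c → (∀ p, c ≤ dx (dx u) p) →
    ∀ x y y' : ℝ, dx (dx u) (x, y) = dx (dx u) (x, y') ∧ dx (dy u) (x, y) = dx (dy u) (x, y')

/-- SWA: exchanging the two variables. -/
def SWA_stmt : Prop :=
  ∀ u : ℝ × ℝ → ℝ, EntireSol u →
    EntireSol (fun p => u (p.2, p.1)) ∧
    (∀ p : ℝ × ℝ, dx (dx (fun q => u (q.2, q.1))) p = dy (dy u) (p.2, p.1)) ∧
    (∀ p : ℝ × ℝ, dy (dy (fun q => u (q.2, q.1))) p = dx (dx u) (p.2, p.1)) ∧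
    (∀ p : ℝ × ℝ, dx (dy (fun q => u (q.2, q.1))) p = dx (dy u) (p.2, p.1))

/-- QUA: constant second derivatives. -/
def QUA_stmt : Prop :=
  ∀ (u : ℝ × ℝ → ℝ) (A B C : ℝ), ContDiff ℝ 2 u → (∀ p, dx (dx u) p = A) →
    (∀ p, dx (dy u) p = B) → (∀ p, dy (dy u) p = C) → IsQuad u

/-- QUB: if `u_11` and `u_12` do not depend on the second variable, the solution is quadratic. -/
def QUB_stmt : Prop :=
  ∀ u : ℝ × ℝ → ℝ, EntireSol u →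
    (∀ x y y' : ℝ, dx (dx u) (x, y) = dx (dx u) (x, y') ∧
      dx (dy u) (x, y) = dx (dy u) (x, y')) → IsQuad u

/-- GLO: local constancy of `u_11` and `u_12` on the set where `u_11` lies in an interval implies
that they are constant. -/
def GLO_stmt : Prop :=
  ∀ (u : ℝ × ℝ → ℝ) (a1 a2 : ℝ) (z0 : ℝ × ℝ), EntireSol u →
    (∀ z : ℝ × ℝ, a1 < dx (dx u) z → dx (dx u) z < a2 → ∃ r : ℝ, 0 < r ∧
      ∀ w w' : ℝ × ℝ, |w.1 - z.1| < r → |w.2 - z.2| < r → |w'.1 - z.1| < r → |w'.2 - z.2| < r →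
        dx (dx u) w = dx (dx u) w' ∧ dx (dy u) w = dx (dy u) w') →
    a1 < dx (dx u) z0 → dx (dx u) z0 < a2 →
    (∀ p, dx (dx u) p = dx (dx u) z0) ∧ (∀ p, dx (dy u) p = dx (dy u) z0)

/-- GAP: if `u_11` never lies in `(a1, a2)` then it is bounded below by `a2` or above by `a1`. -/
def GAP_stmt : Prop :=
  ∀ (u : ℝ × ℝ → ℝ) (a1 a2 : ℝ), EntireSol u → a1 < a2 →
    (∀ p, ¬ (a1 < dx (dx u) p ∧ dx (dx u) p < a2)) →
    (∀ p, a2 ≤ dx (dx u) p) ∨ (∀ p, dx (dx u) p ≤ a1)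

end Pool.Agent.H629R2.EU
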