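import Mathlib
import Pool.Agent.H629R2.EU.Stubs

set_option autoImplicit false

namespace Pool.Agent.H629R2.EU

open MeasureTheory Set

theorem CAL_has (a : ℝ × ℝ) (h : ℝ) (f : ℝ × ℝ → ℝ) (hf : Differentiable ℝ f) (p : ℝ × ℝ) :
    HasFDerivAt (fun p => (f (p + a) - f p) / h)
      (h⁻¹ • (fderiv ℝ f (p + a) - fderiv ℝ f p)) p := by
  have h1 : HasFDerivAt (fun p => f (p + a)) (fderiv ℝ f (p + a)) p := by
    have h2 := (hf (p + a)).hasFDerivAt.comp p ((hasFDerivAt_id p).add_const a)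
    rw [ContinuousLinearMap.comp_id] at h2
    exact h2
  have h3 := (h1.sub (hf p).hasFDerivAt).const_mul h⁻¹
  refine h3.congr_of_eventuallyEq (Filter.Eventually.of_forall (fun q => ?_))
  show (f (q + a) - f q) / h = h⁻¹ * (f (q + a) - f q)
  rw [div_eq_inv_mul]

theorem CAL_q (a v : ℝ × ℝ) (h : ℝ) (f : ℝ × ℝ → ℝ) (hf : Differentiable ℝ f) (p : ℝ × ℝ) :
    fderiv ℝ (fun p => (f (p + a) - f p) / h) p v =
      (fderiv ℝ f (p + a) v - fderiv ℝ f p v) / h := by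
  rw [(CAL_has a h f hf p).fderiv, div_eq_inv_mul]
  simp

theorem CAL_qx (h : ℝ) (f : ℝ × ℝ → ℝ) : qx h f = fun p => (f (p + (h, 0)) - f p) / h := by
  funext p
  unfold qx
  have : p + (h, (0:ℝ)) = (p.1 + h, p.2) := by
    ext <;> simp
  rw [this]

theorem CAL_qy (h : ℝ) (f : ℝ × ℝ → ℝ) : qy h f = fun p => (f (p + (0, h)) - f p) / h := by
  funext p
  unfold qy
  have : p + ((0:ℝ), h) = (p.1, p.2 + h) := by
    ext <;> simp
  rw [this]

theorem CAL_dxqx (h : ℝ) (f : ℝ × ℝ → ℝ) (hf : Differentiable ℝ f) :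
    dx (qx h f) = qx h (dx f) := by
  rw [CAL_qx, CAL_qx]
  funext p
  exact CAL_q (h, 0) (1, 0) h f hf p

theorem CAL_dyqx (h : ℝ) (f : ℝ × ℝ → ℝ) (hf : Differentiable ℝ f) :
    dy (qx h f) = qx h (dy f) := by
  rw [CAL_qx, CAL_qx]
  funext p
  exact CAL_q (h, 0) (0, 1) h f hf p

theorem CAL_dxqy (h : ℝ) (f : ℝ × ℝ → ℝ) (hf : Differentiable ℝ f) :
    dx (qy h f) = qy h (dx f) := by
  rw [CAL_qy, CAL_qy]
  funext p
  exact CAL_q (0, h) (1, 0) h f hf p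

theorem CAL_dyqy (h : ℝ) (f : ℝ × ℝ → ℝ) (hf : Differentiable ℝ f) :
    dy (qy h f) = qy h (dy f) := by
  rw [CAL_qy, CAL_qy]
  funext p
  exact CAL_q (0, h) (0, 1) h f hf p

theorem CAL_cd (a : ℝ × ℝ) (h : ℝ) (f : ℝ × ℝ → ℝ) (hf : ContDiff ℝ 2 f) :
    ContDiff ℝ 2 (fun p => (f (p + a) - f p) / h) :=
  ((hf.comp (contDiff_id.add contDiff_const)).sub hf).div_const h

theorem CAL_d1 (v : ℝ × ℝ) (f : ℝ × ℝ → ℝ) (hf : ContDiff ℝ 2 f) :
    ContDiff ℝ 1 (fun p => fderiv ℝ f p v) :=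
  (hf.fderiv_right (m := 1) (by norm_num)).clm_apply contDiff_const

theorem CAL_sym (f : ℝ × ℝ → ℝ) (hf : ContDiff ℝ 2 f) (p : ℝ × ℝ) :
    dx (dy f) p = dy (dx f) p := by
  have hd : Differentiable ℝ (fderiv ℝ f) :=
    (hf.fderiv_right (m := 1) (by norm_num)).differentiable (by norm_num)
  have key : ∀ v w : ℝ × ℝ, fderiv ℝ (fun q => fderiv ℝ f q v) p w =
      fderiv ℝ (fderiv ℝ f) p w v := by
    intro v w
    have h1 := (hd p).hasFDerivAt.clm_apply (hasFDerivAt_const v p)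
    rw [h1.fderiv]
    simp
  have hs : IsSymmSndFDerivAt ℝ f p := hf.contDiffAt.isSymmSndFDerivAt (by simp)
  show fderiv ℝ (fun q => fderiv ℝ f q (0, 1)) p (1, 0) =
    fderiv ℝ (fun q => fderiv ℝ f q (1, 0)) p (0, 1)
  rw [key, key]
  exact hs (1, 0) (0, 1)

theorem CAL_proof : CAL_stmt := by
  intro u h hu _
  have hd : Differentiable ℝ u := hu.differentiable (by norm_num)
  have hdx : ContDiff ℝ 1 (dx u) := CAL_d1 (1, 0) u hu
  have hdy : ContDiff ℝ 1 (dy u) := CAL_d1 (0, 1) u hu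
  have hdxd : Differentiable ℝ (dx u) := hdx.differentiable (by norm_num)
  have hdyd : Differentiable ℝ (dy u) := hdy.differentiable (by norm_num)
  refine ⟨?_, ?_, hdx, hdy, CAL_sym u hu, CAL_dxqx h u hd, CAL_dyqx h u hd, CAL_dxqy h u hd,
    CAL_dyqy h u hd, ?_, ?_, ?_, ?_, ?_, ?_⟩
  · rw [CAL_qx]
    exact CAL_cd _ h u hu
  · rw [CAL_qy]
    exact CAL_cd _ h u hu
  · rw [CAL_dxqx h u hd, CAL_dxqx h _ hdxd]
  · rw [CAL_dyqx h u hd, CAL_dyqx h _ hdyd]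
  · rw [CAL_dyqx h u hd, CAL_dxqx h _ hdyd]
  · rw [CAL_dxqy h u hd, CAL_dxqy h _ hdxd]
  · rw [CAL_dyqy h u hd, CAL_dyqy h _ hdyd]
  · rw [CAL_dyqy h u hd, CAL_dxqy h _ hdyd]

end Pool.Agent.H629R2.EU
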