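import Mathlib
import Pool.Agent.H629R2.EU.Stubs

set_option autoImplicit false

/-! CUT: cut-off functions of small Dirichlet energy. -/

namespace Pool.Agent.H629R2.EU

open MeasureTheory Set

/-- the basic bump -/
noncomputable def cutB : ContDiffBump (0 : ℝ × ℝ) := ⟨1, 2, one_pos, one_lt_two⟩

theorem cutB_fderiv_ne {q : ℝ × ℝ} (h : fderiv ℝ (cutB : ℝ × ℝ → ℝ) q ≠ 0) :
    1 ≤ ‖q‖ ∧ ‖q‖ ≤ 2 := by
  constructor
  · by_contra hq
    rw [not_le] at hq
    refine h ?_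
    have h1 : (cutB : ℝ × ℝ → ℝ) =ᶠ[nhds q] 1 := by
      refine cutB.eventuallyEq_one_of_mem_ball ?_
      rw [mem_ball_zero_iff]
      exact hq
    rw [h1.fderiv_eq]
    exact fderiv_const_apply (1 : ℝ)
  · by_contra hq
    rw [not_le] at hq
    refine h ?_
    have h1 : q ∉ tsupport (cutB : ℝ × ℝ → ℝ) := by
      rw [cutB.tsupport_eq, mem_closedBall_zero_iff, not_le]
      exact hq
    exact fderiv_of_notMem_tsupport ℝ h1

/-- the scaled bump -/
noncomputable def cutS (l : ℝ) (p : ℝ × ℝ) : ℝ := cutB (l⁻¹ • p)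

theorem cutS_hasFDerivAt (l : ℝ) (p : ℝ × ℝ) :
    HasFDerivAt (cutS l) (l⁻¹ • fderiv ℝ (cutB : ℝ × ℝ → ℝ) (l⁻¹ • p)) p := by
  have hd : Differentiable ℝ (cutB : ℝ × ℝ → ℝ) :=
    (cutB.contDiff (n := 1)).differentiable (by norm_num)
  have h1 := (hd (l⁻¹ • p)).hasFDerivAt.comp p ((hasFDerivAt_id p).const_smul l⁻¹)
  have h2 : (fderiv ℝ (cutB : ℝ × ℝ → ℝ) (l⁻¹ • p)).comp
      (l⁻¹ • ContinuousLinearMap.id ℝ (ℝ × ℝ)) = l⁻¹ • fderiv ℝ (cutB : ℝ × ℝ → ℝ) (l⁻¹ • p) := by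
    ext <;> simp
  rw [h2] at h1
  exact h1

theorem cutS_contDiff (l : ℝ) : ContDiff ℝ 1 (cutS l) :=
  cutB.contDiff.comp (contDiff_id.const_smul l⁻¹)

/-- the energy density of the basic bump -/
noncomputable def cutE (q : ℝ × ℝ) : ℝ := dx cutB q ^ 2 + dy cutB q ^ 2

theorem cutE_integrable : Integrable cutE := by
  have h1 : Continuous (fderiv ℝ (cutB : ℝ × ℝ → ℝ)) :=
    (cutB.contDiff (n := 1)).continuous_fderiv (by norm_num)
  have h2 : Continuous cutE := by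
    unfold cutE dx dy
    exact ((h1.clm_apply continuous_const).pow 2).add ((h1.clm_apply continuous_const).pow 2)
  refine h2.integrable_of_hasCompactSupport ?_
  have h3 : HasCompactSupport (fderiv ℝ (cutB : ℝ × ℝ → ℝ)) := cutB.hasCompactSupport.fderiv ℝ
  exact h3.comp_left (g := fun L : (ℝ × ℝ) →L[ℝ] ℝ => L (1, 0) ^ 2 + L (0, 1) ^ 2) (by simp)

theorem cutS_energy (l : ℝ) (p : ℝ × ℝ) :
    dx (cutS l) p ^ 2 + dy (cutS l) p ^ 2 = (l⁻¹) ^ 2 * cutE (l⁻¹ • p) := by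
  unfold cutE dx dy
  rw [(cutS_hasFDerivAt l p).fderiv]
  simp only [ContinuousLinearMap.smul_apply, smul_eq_mul]
  ring

theorem cutS_int {l : ℝ} (hl : 0 < l) :
    Integrable (fun p => dx (cutS l) p ^ 2 + dy (cutS l) p ^ 2) ∧
    ∫ p, (dx (cutS l) p ^ 2 + dy (cutS l) p ^ 2) = ∫ q, cutE q := by
  have he : (fun p => dx (cutS l) p ^ 2 + dy (cutS l) p ^ 2) =
      fun p => (l⁻¹) ^ 2 * cutE (l⁻¹ • p) := funext fun p => cutS_energy l p
  rw [he]
  have hl' : l⁻¹ ≠ 0 := inv_ne_zero hl.ne'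
  refine ⟨(cutE_integrable.comp_smul hl').const_mul _, ?_⟩
  rw [integral_const_mul, Measure.integral_comp_smul]
  have hf : Module.finrank ℝ (ℝ × ℝ) = 2 := by simp [Module.finrank_prod]
  rw [hf, abs_of_pos (by positivity), smul_eq_mul, ← mul_assoc,
    mul_inv_cancel₀ (by positivity), one_mul]

theorem cut_sq (N : ℕ) (a : ℕ → ℝ) (h : ∀ j k, j ≠ k → a j * a k = 0) :
    (∑ j ∈ Finset.range N, a j) ^ 2 = ∑ j ∈ Finset.range N, a j ^ 2 := by
  rw [sq, Finset.sum_mul_sum]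
  refine Finset.sum_congr rfl fun j hj => ?_
  rw [Finset.sum_eq_single j (fun k _ hk => h j k hk.symm) (fun hj' => absurd hj hj'), sq]

theorem cut_disj {l l' : ℝ} (hl : 0 < l) (hl' : 2 * l < l') (p v w : ℝ × ℝ) :
    fderiv ℝ (cutS l) p v * fderiv ℝ (cutS l') p w = 0 := by
  by_contra hne
  have h1 := left_ne_zero_of_mul hne
  have h2 := right_ne_zero_of_mul hne
  rw [(cutS_hasFDerivAt l p).fderiv] at h1
  rw [(cutS_hasFDerivAt l' p).fderiv] at h2
  have g1 : fderiv ℝ (cutB : ℝ × ℝ → ℝ) (l⁻¹ • p) ≠ 0 := by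
    intro h
    rw [h] at h1
    simp at h1
  have g2 : fderiv ℝ (cutB : ℝ × ℝ → ℝ) (l'⁻¹ • p) ≠ 0 := by
    intro h
    rw [h] at h2
    simp at h2
  have hl'0 : 0 < l' := by linarith
  have k1 := (cutB_fderiv_ne g1).2
  have k2 := (cutB_fderiv_ne g2).1
  rw [norm_smul, norm_inv, Real.norm_eq_abs, abs_of_pos hl, inv_mul_le_iff₀ hl] at k1
  rw [norm_smul, norm_inv, Real.norm_eq_abs, abs_of_pos hl'0, le_inv_mul_iff₀ hl'0] at k2
  linarith

theorem CUT_proof : CUT_stmt := by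
  intro R ε hε
  set R' := max R 1 with hR'
  have hR'0 : 0 < R' := lt_of_lt_of_le one_pos (le_max_right _ _)
  set I := ∫ q, cutE q with hI
  have hI0 : 0 ≤ I := integral_nonneg fun q => by unfold cutE; positivity
  obtain ⟨N, hN⟩ := exists_nat_gt (I / ε)
  have hN0 : (0:ℝ) < N := lt_of_le_of_lt (by positivity) hN
  set l : ℕ → ℝ := fun j => R' * 4 ^ j with hl
  have hl0 : ∀ j, 0 < l j := fun j => by simp only [hl]; positivity
  have hlt : ∀ j k, j < k → 2 * l j < l k := by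
    intro j k hjk
    simp only [hl]
    have h1 : (4:ℝ) ^ (j + 1) ≤ 4 ^ k := pow_le_pow_right₀ (by norm_num) hjk
    have h2 : R' * (4:ℝ) ^ (j + 1) ≤ R' * 4 ^ k := mul_le_mul_of_nonneg_left h1 hR'0.le
    have h3 : 0 < R' * (4:ℝ) ^ j := by positivity
    rw [pow_succ] at h2
    linarith
  have hcross : ∀ (p v : ℝ × ℝ) (j k : ℕ), j ≠ k →
      fderiv ℝ (cutS (l j)) p v * fderiv ℝ (cutS (l k)) p v = 0 := by
    intro p v j k hjk
    rcases lt_or_gt_of_ne hjk with h | h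
    · exact cut_disj (hl0 j) (hlt j k h) p v v
    · rw [mul_comm]
      exact cut_disj (hl0 k) (hlt k j h) p v v
  set η : ℝ × ℝ → ℝ := fun p => (N:ℝ)⁻¹ * ∑ j ∈ Finset.range N, cutS (l j) p with hη
  have hfd : ∀ p v, fderiv ℝ η p v =
      (N:ℝ)⁻¹ * ∑ j ∈ Finset.range N, fderiv ℝ (cutS (l j)) p v := by
    intro p v
    have h1 : HasFDerivAt (fun p => ∑ j ∈ Finset.range N, cutS (l j) p)
        (∑ j ∈ Finset.range N, fderiv ℝ (cutS (l j)) p) p :=
      HasFDerivAt.fun_sum fun j _ => (cutS_hasFDerivAt (l j) p).differentiableAt.hasFDerivAt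
    have h2 := h1.const_mul (N:ℝ)⁻¹
    rw [h2.fderiv]
    simp [ContinuousLinearMap.sum_apply]
  refine ⟨η, ?_, ?_, ?_, ?_, ?_, ?_⟩
  · exact contDiff_const.mul (ContDiff.sum fun j _ => cutS_contDiff (l j))
  · refine HasCompactSupport.intro (isCompact_closedBall (0 : ℝ × ℝ) (2 * l N)) fun p hp => ?_
    rw [mem_closedBall_zero_iff, not_le] at hp
    have h1 : ∑ j ∈ Finset.range N, cutS (l j) p = 0 := by
      refine Finset.sum_eq_zero fun j hj => ?_
      refine cutB.zero_of_le_dist ?_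
      rw [dist_zero_right, norm_smul, norm_inv, Real.norm_eq_abs, abs_of_pos (hl0 j),
        le_inv_mul_iff₀ (hl0 j)]
      have h2 := hlt j N (Finset.mem_range.mp hj)
      have h3 := hl0 j
      have h4 : cutB.rOut = 2 := rfl
      rw [h4]
      linarith
    simp only [hη, h1, mul_zero]
  · intro p
    exact mul_nonneg (by positivity) (Finset.sum_nonneg fun j _ => cutB.nonneg)
  · intro p
    have h1 : ∑ j ∈ Finset.range N, cutS (l j) p ≤ ∑ j ∈ Finset.range N, (1:ℝ) :=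
      Finset.sum_le_sum fun j _ => cutB.le_one
    rw [Finset.sum_const, Finset.card_range, nsmul_eq_mul, mul_one] at h1
    simp only [hη]
    rw [inv_mul_le_iff₀ hN0, mul_one]
    exact h1
  · intro p hp1 hp2
    have hp : ‖p‖ ≤ R := by
      rw [Prod.norm_def]
      exact max_le hp1 hp2
    have h1 : ∑ j ∈ Finset.range N, cutS (l j) p = ∑ j ∈ Finset.range N, (1:ℝ) := by
      refine Finset.sum_congr rfl fun j _ => ?_
      refine cutB.one_of_mem_closedBall ?_
      rw [mem_closedBall_zero_iff, norm_smul, norm_inv, Real.norm_eq_abs, abs_of_pos (hl0 j),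
        inv_mul_le_iff₀ (hl0 j)]
      have h4 : cutB.rIn = 1 := rfl
      have h5 : R' ≤ l j := by
        simp only [hl]
        exact le_mul_of_one_le_right hR'0.le (one_le_pow₀ (by norm_num))
      have h6 : R ≤ R' := le_max_left _ _
      rw [h4]
      linarith
    rw [Finset.sum_const, Finset.card_range, nsmul_eq_mul, mul_one] at h1
    simp only [hη]
    rw [h1, inv_mul_cancel₀ hN0.ne']
  · have h1 : ∀ p, dx η p ^ 2 + dy η p ^ 2 = ((N:ℝ)⁻¹) ^ 2 *
        ∑ j ∈ Finset.range N, (dx (cutS (l j)) p ^ 2 + dy (cutS (l j)) p ^ 2) := by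
      intro p
      unfold dx dy
      rw [hfd, hfd, mul_pow, mul_pow, cut_sq N _ (hcross p _), cut_sq N _ (hcross p _),
        Finset.sum_add_distrib, mul_add]
    simp only [h1]
    rw [integral_const_mul, integral_finset_sum _ fun j _ => (cutS_int (hl0 j)).1]
    simp only [(cutS_int (hl0 _)).2]
    rw [Finset.sum_const, Finset.card_range, nsmul_eq_mul, ← hI]
    rw [div_lt_iff₀ hε] at hN
    have h2 : ((N:ℝ)⁻¹) ^ 2 * (N * I) = I / N := by
      field_simp
    rw [h2, div_le_iff₀ hN0]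
    linarith

end Pool.Agent.H629R2.EU
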