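import Mathlib
import Pool.Agent.H629R2.EU.Stubs

set_option autoImplicit false

namespace Pool.Agent.H629R2.EU

open MeasureTheory Set

theorem ENE_d1 (v : ℝ × ℝ) (f : ℝ × ℝ → ℝ) (hf : ContDiff ℝ 2 f) :
    ContDiff ℝ 1 (fun p => fderiv ℝ f p v) :=
  (hf.fderiv_right (m := 1) (by norm_num)).clm_apply contDiff_const

theorem ENE_d0 (v : ℝ × ℝ) (f : ℝ × ℝ → ℝ) (hf : ContDiff ℝ 1 f) :
    Continuous (fun p => fderiv ℝ f p v) :=
  (hf.continuous_fderiv (by norm_num)).clm_apply continuous_const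

theorem ENE_sym (f : ℝ × ℝ → ℝ) (hf : ContDiff ℝ 2 f) (p : ℝ × ℝ) :
    dx (dy f) p = dy (dx f) p := by
  have hd : Differentiable ℝ (fderiv ℝ f) :=
    (hf.fderiv_right (m := 1) (by norm_num)).differentiable (by norm_num)
  have key : ∀ v w : ℝ × ℝ, fderiv ℝ (fun q => fderiv ℝ f q v) p w =
      fderiv ℝ (fderiv ℝ f) p w v := by
    intro v w
    have h1 := (hd p).hasFDerivAt.clm_apply (hasFDerivAt_const v p)
    rw [h1.fderiv]
    simp
  have hs : IsSymmSndFDerivAt ℝ f p := hf.contDiffAt.isSymmSndFDerivAt (by simp)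
  show fderiv ℝ (fun q => fderiv ℝ f q (0, 1)) p (1, 0) =
    fderiv ℝ (fun q => fderiv ℝ f q (1, 0)) p (0, 1)
  rw [key, key]
  exact hs (1, 0) (0, 1)

theorem ENE_c1 (P P' : ℝ → ℝ) (h : ∀ t, HasDerivAt P (P' t) t) (hc : Continuous P') :
    ContDiff ℝ 1 P := by
  rw [contDiff_one_iff_deriv]
  refine ⟨fun t => (h t).differentiableAt, ?_⟩
  have : deriv P = P' := funext fun t => (h t).deriv
  rw [this]
  exact hc

/-- the derivative of `ψ = η² P(g)` -/
theorem ENE_psi (η g : ℝ × ℝ → ℝ) (P P' : ℝ → ℝ) (hη : ContDiff ℝ 1 η) (hg : ContDiff ℝ 1 g)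
    (h : ∀ t, HasDerivAt P (P' t) t) (p w : ℝ × ℝ) :
    fderiv ℝ (fun q => η q ^ 2 * P (g q)) p w =
      2 * η p * fderiv ℝ η p w * P (g p) + η p ^ 2 * (P' (g p) * fderiv ℝ g p w) := by
  have h1 : HasFDerivAt η (fderiv ℝ η p) p := (hη.differentiable (by norm_num) p).hasFDerivAt
  have h2 : HasFDerivAt g (fderiv ℝ g p) p := (hg.differentiable (by norm_num) p).hasFDerivAt
  have h3 := (h (g p)).comp_hasFDerivAt p h2
  have h4 := (h1.pow 2).mul h3
  have h5 : fderiv ℝ (fun q => η q ^ 2 * P (g q)) p = _ := h4.fderiv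
  rw [h5]
  simp
  ring

theorem ENE_comp (g : ℝ × ℝ → ℝ) (Q k : ℝ → ℝ) (hg : ContDiff ℝ 1 g)
    (h : ∀ t, HasDerivAt Q (k t) t) (p w : ℝ × ℝ) :
    fderiv ℝ (fun q => Q (g q)) p w = k (g p) * fderiv ℝ g p w := by
  have h2 : HasFDerivAt g (fderiv ℝ g p) p := (hg.differentiable (by norm_num) p).hasFDerivAt
  have h3 := (h (g p)).comp_hasFDerivAt p h2
  have h5 : fderiv ℝ (fun q => Q (g q)) p = _ := h3.fderiv
  rw [h5]
  simp

/-- pointwise inequality -/
theorem ENE_pt (e ex ey P W k K M a b : ℝ) (hk : 0 ≤ k) (hkM : k ≤ M) (hK : 0 ≤ K)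
    (h : e ≠ 0 → k ≠ 0 → 0 ≤ W ∧ P ^ 2 * (a ^ 2 + b ^ 2) ≤ K * W) :
    -(2 * e * P * k * (ex * a - ey * b)) ≤
      (1 / 2) * (e ^ 2 * (W * k)) + 2 * K * M * (ex ^ 2 + ey ^ 2) := by
  have hM : 0 ≤ M := hk.trans hkM
  have hg : 0 ≤ ex ^ 2 + ey ^ 2 := by positivity
  by_cases he : e = 0
  · subst he
    have : 0 ≤ 2 * K * M * (ex ^ 2 + ey ^ 2) := by positivity
    simpa using this
  by_cases hk0 : k = 0
  · subst hk0
    have : 0 ≤ 2 * K * M * (ex ^ 2 + ey ^ 2) := by positivity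
    simpa using this
  obtain ⟨hW, hP⟩ := h he hk0
  set X := P * (ex * a - ey * b) with hX
  have hX2 : X ^ 2 ≤ K * W * (ex ^ 2 + ey ^ 2) := by
    have h1 : (ex * a - ey * b) ^ 2 ≤ (a ^ 2 + b ^ 2) * (ex ^ 2 + ey ^ 2) := by
      nlinarith [sq_nonneg (ex * b + ey * a)]
    calc X ^ 2 = P ^ 2 * (ex * a - ey * b) ^ 2 := by rw [hX]; ring
      _ ≤ P ^ 2 * ((a ^ 2 + b ^ 2) * (ex ^ 2 + ey ^ 2)) :=
          mul_le_mul_of_nonneg_left h1 (sq_nonneg P)
      _ = (P ^ 2 * (a ^ 2 + b ^ 2)) * (ex ^ 2 + ey ^ 2) := by ring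
      _ ≤ K * W * (ex ^ 2 + ey ^ 2) := mul_le_mul_of_nonneg_right hP hg
  have hr : 0 ≤ (1 / 2) * (e ^ 2 * W) + 2 * K * (ex ^ 2 + ey ^ 2) := by positivity
  have h2 : (2 * e * X) ^ 2 ≤ ((1 / 2) * (e ^ 2 * W) + 2 * K * (ex ^ 2 + ey ^ 2)) ^ 2 := by
    have h3 : (2 * e * X) ^ 2 ≤ 4 * e ^ 2 * (K * W * (ex ^ 2 + ey ^ 2)) := by
      have := mul_le_mul_of_nonneg_left hX2 (show (0:ℝ) ≤ 4 * e ^ 2 by positivity)
      calc (2 * e * X) ^ 2 = 4 * e ^ 2 * X ^ 2 := by ring
        _ ≤ _ := this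
    nlinarith [sq_nonneg ((1 / 2) * (e ^ 2 * W) - 2 * K * (ex ^ 2 + ey ^ 2))]
  have h4 : |2 * e * X| ≤ (1 / 2) * (e ^ 2 * W) + 2 * K * (ex ^ 2 + ey ^ 2) :=
    abs_le_of_sq_le_sq h2 hr
  have h5 : -(2 * e * X) ≤ (1 / 2) * (e ^ 2 * W) + 2 * K * (ex ^ 2 + ey ^ 2) :=
    (neg_le_abs _).trans h4
  calc -(2 * e * P * k * (ex * a - ey * b)) = k * (-(2 * e * X)) := by rw [hX]; ring
    _ ≤ k * ((1 / 2) * (e ^ 2 * W) + 2 * K * (ex ^ 2 + ey ^ 2)) :=
        mul_le_mul_of_nonneg_left h5 hk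
    _ = (1 / 2) * (e ^ 2 * (W * k)) + k * (2 * K * (ex ^ 2 + ey ^ 2)) := by ring
    _ ≤ (1 / 2) * (e ^ 2 * (W * k)) + M * (2 * K * (ex ^ 2 + ey ^ 2)) := by
        gcongr
    _ = _ := by ring

theorem ENE_proof (hN : NUL_stmt) : ENE_stmt := by
  intro v η P P' Q k K M hv hη hηc hP hP' hQ hk hk0 hkM hK hyp
  have hvx : ContDiff ℝ 1 (dx v) := ENE_d1 (1, 0) v hv
  have hvy : ContDiff ℝ 1 (dy v) := ENE_d1 (0, 1) v hv
  have hPc : ContDiff ℝ 1 P := ENE_c1 P P' hP hP'
  have hQc : ContDiff ℝ 1 Q := ENE_c1 Q k hQ hk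
  have hψ : ContDiff ℝ 1 (fun q => η q ^ 2 * P (dy v q)) := (hη.pow 2).mul (hPc.comp hvy)
  have hB : ContDiff ℝ 1 (fun q => Q (dx v q)) := hQc.comp hvx
  have hη2 : HasCompactSupport (fun q => η q ^ 2) := by
    have : (fun q => η q ^ 2) = (fun q => η q * η q) := funext fun q => sq _
    rw [this]
    exact hηc.mul_right
  have hψc : HasCompactSupport (fun q => η q ^ 2 * P (dy v q)) := hη2.mul_right
  have hnul := hN _ _ hψ hψc hB
  -- the functions
  have cx : Continuous (dx η) := ENE_d0 (1, 0) η hη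
  have cy : Continuous (dy η) := ENE_d0 (0, 1) η hη
  have cxx : Continuous (dx (dx v)) := ENE_d0 (1, 0) _ hvx
  have cxy : Continuous (dx (dy v)) := ENE_d0 (1, 0) _ hvy
  have cyy : Continuous (dy (dy v)) := ENE_d0 (0, 1) _ hvy
  have cη := hη.continuous
  have cvx := hvx.continuous
  have cvy := hvy.continuous
  have cP := hPc.continuous
  have cPv : Continuous (fun p => P (dy v p)) := cP.comp cvy
  have cP'v : Continuous (fun p => P' (dy v p)) := hP'.comp cvy
  have ckv : Continuous (fun p => k (dx v p)) := hk.comp cvx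
  have e1 : ∀ p, dx (fun q => η q ^ 2 * P (dy v q)) p =
      2 * η p * dx η p * P (dy v p) + η p ^ 2 * (P' (dy v p) * dx (dy v) p) :=
    fun p => ENE_psi η (dy v) P P' hη hvy hP p (1, 0)
  have e2 : ∀ p, dy (fun q => η q ^ 2 * P (dy v q)) p =
      2 * η p * dy η p * P (dy v p) + η p ^ 2 * (P' (dy v p) * dy (dy v) p) :=
    fun p => ENE_psi η (dy v) P P' hη hvy hP p (0, 1)
  have e3 : ∀ p, dx (fun q => Q (dx v q)) p = k (dx v p) * dx (dx v) p :=
    fun p => ENE_comp (dx v) Q k hvx hQ p (1, 0)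
  have e4 : ∀ p, dy (fun q => Q (dx v q)) p = k (dx v p) * dx (dy v) p := by
    intro p
    rw [ENE_sym v hv p]
    exact ENE_comp (dx v) Q k hvx hQ p (0, 1)
  -- integrable functions
  set F : ℝ × ℝ → ℝ := fun p => η p ^ 2 * (P' (dy v p) * k (dx v p) *
        (dx (dy v) p ^ 2 - dx (dx v) p * dy (dy v) p)) with hF
  set G : ℝ × ℝ → ℝ := fun p => -(2 * η p * P (dy v p) * k (dx v p) *
        (dx η p * dx (dy v) p - dy η p * dx (dx v) p)) with hG
  set H : ℝ × ℝ → ℝ := fun p => dx η p ^ 2 + dy η p ^ 2 with hH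
  have iF : Integrable F := by
    apply Continuous.integrable_of_hasCompactSupport
    · exact (cη.pow 2).mul ((cP'v.mul ckv).mul ((cxy.pow 2).sub (cxx.mul cyy)))
    · exact hη2.mul_right
  have iG : Integrable G := by
    apply Continuous.integrable_of_hasCompactSupport
    · exact ((((continuous_const.mul cη).mul cPv).mul ckv).mul
        ((cx.mul cxy).sub (cy.mul cxx))).neg
    · have : G = fun p => η p * (-(2 * P (dy v p) * k (dx v p) *
        (dx η p * dx (dy v) p - dy η p * dx (dx v) p))) := by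
        funext p
        simp only [hG]
        ring
      rw [this]
      exact hηc.mul_right
  have hdxη : HasCompactSupport (dx η) := hηc.fderiv_apply (𝕜 := ℝ) (1, 0)
  have hdyη : HasCompactSupport (dy η) := hηc.fderiv_apply (𝕜 := ℝ) (0, 1)
  have iH : Integrable H := by
    apply Continuous.integrable_of_hasCompactSupport
    · exact (cx.pow 2).add (cy.pow 2)
    · have h1 : HasCompactSupport (fun p => dx η p ^ 2) := by
        have : (fun q => dx η q ^ 2) = (fun q => dx η q * dx η q) := funext fun q => sq _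
        rw [this]
        exact hdxη.mul_right
      have h2 : HasCompactSupport (fun p => dy η p ^ 2) := by
        have : (fun q => dy η q ^ 2) = (fun q => dy η q * dy η q) := funext fun q => sq _
        rw [this]
        exact hdyη.mul_right
      exact h1.add h2
  have iA : Integrable (fun p => dx (fun q => η q ^ 2 * P (dy v q)) p *
      dy (fun q => Q (dx v q)) p) := by
    apply Continuous.integrable_of_hasCompactSupport
    · exact (ENE_d0 (1, 0) _ hψ).mul (ENE_d0 (0, 1) _ hB)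
    · exact (hψc.fderiv_apply (𝕜 := ℝ) (1, 0)).mul_right
  have iB : Integrable (fun p => dy (fun q => η q ^ 2 * P (dy v q)) p *
      dx (fun q => Q (dx v q)) p) := by
    apply Continuous.integrable_of_hasCompactSupport
    · exact (ENE_d0 (0, 1) _ hψ).mul (ENE_d0 (1, 0) _ hB)
    · exact (hψc.fderiv_apply (𝕜 := ℝ) (0, 1)).mul_right
  have hFG : ∫ p, F p = ∫ p, G p := by
    have h1 : ∫ p, (dx (fun q => η q ^ 2 * P (dy v q)) p * dy (fun q => Q (dx v q)) p -
        dy (fun q => η q ^ 2 * P (dy v q)) p * dx (fun q => Q (dx v q)) p) = 0 := by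
      rw [integral_sub iA iB, hnul, sub_self]
    have h2 : ∫ p, (F p - G p) = 0 := by
      rw [← h1]
      refine integral_congr_ae (Filter.Eventually.of_forall (fun p => ?_))
      simp only [hF, hG]
      rw [e1, e2, e3, e4]
      ring
    rw [integral_sub iF iG] at h2
    linarith
  have hpt : ∀ p, G p ≤ (1 / 2) * F p + 2 * K * M * H p := by
    intro p
    have h1 := ENE_pt (η p) (dx η p) (dy η p) (P (dy v p))
      (P' (dy v p) * (dx (dy v) p ^ 2 - dx (dx v) p * dy (dy v) p)) (k (dx v p)) K M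
      (dx (dy v) p) (dx (dx v) p) (hk0 _) (hkM _) hK (hyp p)
    simp only [hF, hG, hH]
    calc _ ≤ _ := h1
      _ = _ := by ring
  have hint : ∫ p, G p ≤ (1 / 2) * (∫ p, F p) + 2 * K * M * (∫ p, H p) := by
    calc ∫ p, G p ≤ ∫ p, ((1 / 2) * F p + 2 * K * M * H p) :=
          integral_mono iG ((iF.const_mul _).add (iH.const_mul _)) hpt
      _ = _ := by
        rw [integral_add (iF.const_mul _) (iH.const_mul _), integral_const_mul,
          integral_const_mul]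
  have hfin : ∫ p, F p ≤ 4 * K * M * ∫ p, H p := by
    rw [← hFG] at hint
    linarith
  exact hfin

end Pool.Agent.H629R2.EU
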