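import Mathlib
import Pool.Agent.H629R2.EU.Defs
import Pool.Agent.H629R2.EU.Stubs

set_option autoImplicit false

namespace Pool.Agent.H629R2.EU

open MeasureTheory Set

theorem IsQuad_swap (u : ℝ × ℝ → ℝ) (h : IsQuad (fun p => u (p.2, p.1))) : IsQuad u := by
  obtain ⟨a, b, c, d, e, f, hf⟩ := h
  refine ⟨c, b, a, e, d, f, fun x y => ?_⟩
  have := hf y x
  simp only at this
  rw [this]; ring

theorem pos_of_sol (u : ℝ × ℝ → ℝ) (hu : EntireSol u) (p : ℝ × ℝ) : 0 < dx (dx u) p := by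
  rcases (hu.2.1 p).lt_or_eq with h | h
  · exact h
  · exfalso
    have := hu.2.2.2 p
    rw [← h] at this
    simp at this

theorem inv_of_sol (u : ℝ × ℝ → ℝ) (hu : EntireSol u) (p : ℝ × ℝ) :
    dy (dy u) p = (dx (dx u) p)⁻¹ := by
  have h1 := pos_of_sol u hu p
  have h2 := hu.2.2.2 p
  exact eq_inv_of_mul_eq_one_right h2

theorem main_thm (hLOC : LOC_stmt) (hLOB : LOB_stmt) (hSWA : SWA_stmt) (hQUA : QUA_stmt)
    (hQUB : QUB_stmt) (hGLO : GLO_stmt) (hGAP : GAP_stmt)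
    (u : ℝ × ℝ → ℝ) (hu : EntireSol u) :
    IsQuad u ∨ ∀ α β ε : ℝ, 0 < α → 0 < ε →
      ∃ p : ℝ × ℝ, |dx (dx u) p - α| < ε ∧ |dx (dy u) p - β| < ε := by
  by_contra hcon
  push Not at hcon
  obtain ⟨hnq, α, β, ε, hα, hε, hom⟩ := hcon
  apply hnq
  obtain ⟨hsw, hsw11, hsw22, hsw12⟩ := hSWA u hu
  set ε' := min ε (α / 2) with hε'
  have hε'pos : 0 < ε' := lt_min hε (by linarith)
  have hle1 : ε' ≤ ε := min_le_left _ _
  have hle2 : ε' ≤ α / 2 := min_le_right _ _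
  have ha1 : 0 < α - ε' := by linarith
  have ha12 : α - ε' < α + ε' := by linarith
  have hom' : ∀ p, α - ε' < dx (dx u) p → dx (dx u) p < α + ε' →
      2 * (ε / 2) ≤ |dx (dy u) p - β| := by
    intro p h1 h2
    have := hom p (by rw [abs_lt]; constructor <;> linarith)
    linarith
  by_cases hex : ∃ z0, α - ε' < dx (dx u) z0 ∧ dx (dx u) z0 < α + ε'
  · obtain ⟨z0, hz1, hz2⟩ := hex
    have hglo := hGLO u (α - ε') (α + ε') z0 hu ?_ hz1 hz2
    · obtain ⟨hg1, hg2⟩ := hglo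
      refine hQUA u (dx (dx u) z0) (dx (dy u) z0) (dx (dx u) z0)⁻¹ hu.1 hg1 hg2 ?_
      intro p
      rw [inv_of_sol u hu p, hg1 p]
    · intro z hz1 hz2
      obtain ⟨r1, hr1, hl1⟩ := hLOC u (α - ε') (α + ε') β (ε / 2) hu ha1 ha12 (by linarith)
        hom' z hz1 hz2
      have h2 := hLOC (fun p => u (p.2, p.1)) (α + ε')⁻¹ (α - ε')⁻¹ β (ε / 2) hsw
        (by positivity) (by
          apply inv_strictAnti₀ ha1 ha12) (by linarith) ?_ (z.2, z.1) ?_ ?_
      · obtain ⟨r2, hr2, hl2⟩ := h2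
        refine ⟨min r1 r2, lt_min hr1 hr2, ?_⟩
        intro w w' hw1 hw2 hw1' hw2'
        have m1 : min r1 r2 ≤ r1 := min_le_left _ _
        have m2 : min r1 r2 ≤ r2 := min_le_right _ _
        have e1 := hl1 w.1 w'.1 w.2 (lt_of_lt_of_le hw1 m1) (lt_of_lt_of_le hw1' m1)
          (lt_of_lt_of_le hw2 m1)
        have e2 := hl2 w.2 w'.2 w'.1 (lt_of_lt_of_le hw2 m2) (lt_of_lt_of_le hw2' m2)
          (lt_of_lt_of_le hw1' m2)
        rw [hsw11, hsw11, hsw12, hsw12] at e2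
        simp only at e2
        rw [inv_of_sol u hu, inv_of_sol u hu, inv_inj] at e2
        exact ⟨e1.1.trans e2.1, e1.2.trans e2.2⟩
      · intro p h1 h2
        rw [hsw11, inv_of_sol u hu] at h1 h2
        rw [hsw12]
        have hpos := pos_of_sol u hu (p.2, p.1)
        apply hom'
        · exact (inv_lt_inv₀ hpos ha1).1 h2
        · exact (inv_lt_inv₀ (by linarith) hpos).1 h1
      · rw [hsw11, inv_of_sol u hu]
        exact (inv_lt_inv₀ (by linarith) (pos_of_sol u hu _)).2 hz2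
      · rw [hsw11, inv_of_sol u hu]
        exact (inv_lt_inv₀ (pos_of_sol u hu _) ha1).2 hz1
  · push Not at hex
    rcases hGAP u (α - ε') (α + ε') hu ha12 (fun p hp => absurd hp.2 (not_lt.2 (hex p hp.1)))
      with h | h
    · exact hQUB u hu (hLOB u (α + ε') hu (by linarith) h)
    · apply IsQuad_swap
      refine hQUB _ hsw (hLOB _ (α - ε')⁻¹ hsw (by positivity) ?_)
      intro p
      rw [hsw11, inv_of_sol u hu]
      exact inv_anti₀ (pos_of_sol u hu _) (h _)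

end Pool.Agent.H629R2.EU
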