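import Mathlib
import Pool.Agent.H629R2.EU.Defs
import Pool.Agent.H629R2.EU.Stubs
import Pool.Agent.H629R2.EU.Fin

set_option autoImplicit false

namespace Pool.Agent.H629R2.EU

open MeasureTheory Set

theorem fin_contDiff_dx {f : ℝ × ℝ → ℝ} {n : ℕ∞} (hf : ContDiff ℝ (n + 1) f) :
    ContDiff ℝ n (dx f) :=
  (hf.fderiv_right (m := n) le_rfl).clm_apply contDiff_const

theorem fin_contDiff_dy {f : ℝ × ℝ → ℝ} {n : ℕ∞} (hf : ContDiff ℝ (n + 1) f) :
    ContDiff ℝ n (dy f) :=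
  (hf.fderiv_right (m := n) le_rfl).clm_apply contDiff_const

theorem fin_cont (u : ℝ × ℝ → ℝ) (hu : ContDiff ℝ 2 u) :
    Continuous (dx (dx u)) ∧ Continuous (dx (dy u)) := by
  have h1 : ContDiff ℝ ((0 : ℕ∞) + 1) (dx u) := by
    have := fin_contDiff_dx (n := 1) (f := u) (by norm_num; exact hu)
    simpa using this
  have h2 : ContDiff ℝ ((0 : ℕ∞) + 1) (dy u) := by
    have := fin_contDiff_dy (n := 1) (f := u) (by norm_num; exact hu)
    simpa using this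
  exact ⟨(fin_contDiff_dx h1).continuous, (fin_contDiff_dx h2).continuous⟩

theorem main_thm2 (hLOC : LOC_stmt) (hLOB : LOB_stmt) (hSWA : SWA_stmt) (hQUA : QUA_stmt)
    (hQUB : QUB_stmt) (hGLO : GLO_stmt) (hGAP : GAP_stmt)
    (u : ℝ × ℝ → ℝ) (hu : EntireSol u) :
    IsQuad u ∨ ((∀ α β ε : ℝ, 0 < α → 0 < ε →
      ∃ p : ℝ × ℝ, |dx (dx u) p - α| < ε ∧ |dx (dy u) p - β| < ε) ∧
      (∀ α : ℝ, 0 < α → ∃ p, dx (dx u) p = α) ∧ (∀ β : ℝ, ∃ p, dx (dy u) p = β)) := by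
  rcases main_thm hLOC hLOB hSWA hQUA hQUB hGLO hGAP u hu with h | h
  · exact Or.inl h
  · right
    obtain ⟨c1, c2⟩ := fin_cont u hu.1
    refine ⟨h, fun α hα => ?_, fun β => ?_⟩
    · obtain ⟨p, hp, -⟩ := h (α / 2) 0 (α / 4) (by linarith) (by linarith)
      obtain ⟨q, hq, -⟩ := h (2 * α) 0 (α / 4) (by linarith) (by linarith)
      rw [abs_lt] at hp hq
      have := mem_range_of_exists_le_of_exists_ge c1 ⟨p, show dx (dx u) p ≤ α by linarith⟩
        ⟨q, show α ≤ dx (dx u) q by linarith⟩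
      exact this
    · obtain ⟨p, -, hp⟩ := h 1 (β - 2) 1 one_pos one_pos
      obtain ⟨q, -, hq⟩ := h 1 (β + 2) 1 one_pos one_pos
      rw [abs_lt] at hp hq
      have := mem_range_of_exists_le_of_exists_ge c2 ⟨p, show dx (dy u) p ≤ β by linarith⟩
        ⟨q, show β ≤ dx (dy u) q by linarith⟩
      exact this

end Pool.Agent.H629R2.EU
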