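import Pool.Agent.H629R2.EU.Stubs

set_option autoImplicit false

/-! Tasks GLO and GAP: connectedness arguments. -/

namespace Pool.Agent.H629R2.EU

open MeasureTheory Set

namespace GLOaux

theorem dx_c1 {u : ℝ × ℝ → ℝ} (h : ContDiff ℝ 2 u) : ContDiff ℝ 1 (dx u) :=
  (h.fderiv_right (m := 1) (by norm_num)).clm_apply contDiff_const

theorem dy_c1 {u : ℝ × ℝ → ℝ} (h : ContDiff ℝ 2 u) : ContDiff ℝ 1 (dy u) :=
  (h.fderiv_right (m := 1) (by norm_num)).clm_apply contDiff_const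

theorem dx_c0 {f : ℝ × ℝ → ℝ} (h : ContDiff ℝ 1 f) : Continuous (dx f) :=
  (h.continuous_fderiv one_ne_zero).clm_apply continuous_const

end GLOaux

open GLOaux in
theorem GLO_proof : GLO_stmt := by
  intro u a1 a2 z0 hu hloc h1 h2
  have hc1 : Continuous (dx (dx u)) := dx_c0 (dx_c1 hu.1)
  have hc2 : Continuous (dx (dy u)) := dx_c0 (dy_c1 hu.1)
  set Z : Set (ℝ × ℝ) := {p | dx (dx u) p = dx (dx u) z0 ∧ dx (dy u) p = dx (dy u) z0} with hZ
  have hclosed : IsClosed Z :=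
    (isClosed_eq hc1 continuous_const).inter (isClosed_eq hc2 continuous_const)
  have hopen : IsOpen Z := by
    rw [Metric.isOpen_iff]
    intro z hz
    obtain ⟨r, hr, h⟩ := hloc z (by rw [hz.1]; exact h1) (by rw [hz.1]; exact h2)
    refine ⟨r, hr, fun w hw => ?_⟩
    rw [Metric.mem_ball, Prod.dist_eq, max_lt_iff, Real.dist_eq, Real.dist_eq] at hw
    obtain ⟨e1, e2⟩ := h w z hw.1 hw.2 (by simpa using hr) (by simpa using hr)
    exact ⟨e1.trans hz.1, e2.trans hz.2⟩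
  have huniv : Z = univ := IsClopen.eq_univ ⟨hclosed, hopen⟩ ⟨z0, rfl, rfl⟩
  have hall : ∀ p, p ∈ Z := fun p => by rw [huniv]; exact mem_univ p
  exact ⟨fun p => (hall p).1, fun p => (hall p).2⟩

open GLOaux in
theorem GAP_proof : GAP_stmt := by
  intro u a1 a2 hu h12 hgap
  have hc1 : Continuous (dx (dx u)) := dx_c0 (dx_c1 hu.1)
  by_contra hcon
  push Not at hcon
  obtain ⟨⟨p, hp⟩, q, hq⟩ := hcon
  have hp' : dx (dx u) p ≤ a1 := by
    by_contra h
    push Not at h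
    exact hgap p ⟨h, hp⟩
  have hq' : a2 ≤ dx (dx u) q := by
    by_contra h
    push Not at h
    exact hgap q ⟨hq, h⟩
  obtain ⟨z, hz⟩ := mem_range_of_exists_le_of_exists_ge hc1 (c := (a1 + a2) / 2)
    ⟨p, by linarith⟩ ⟨q, by linarith⟩
  exact hgap z ⟨by rw [hz]; linarith, by rw [hz]; linarith⟩

end Pool.Agent.H629R2.EU
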