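import Mathlib
import Pool.Agent.H629R2.EU.Stubs

set_option autoImplicit false

namespace Pool.Agent.H629R2.EU

open MeasureTheory Set

theorem LOB_pt1 (P P' h : ℝ) (hP : 0 < P) (hP' : 0 < P') (hh : 0 < h) :
    -(((P' - P) / h) * ((P'⁻¹ - P⁻¹) / h)) = ((P' - P) / h) ^ 2 / (P * P') := by
  field_simp
  ring

theorem LOB_pt2 (c P P' τ B vy a b : ℝ) (hc : 0 < c) (hP : c ≤ P) (hP' : c ≤ P') (hPB : P ≤ B)
    (hτ0 : 0 ≤ τ) (hτ1 : τ ≤ 1) (hτ : τ * (B + 1 / c + 1) ≤ 1 / 4) (h1 : |vy - P⁻¹| ≤ τ)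
    (h2 : |P' - P| ≤ τ) :
    vy ^ 2 * (a ^ 2 + b ^ 2) ≤ ((1 / c + 1) ^ 2 + 2) * (a ^ 2 + b ^ 2 / (P * P')) := by
  have hP0 : 0 < P := hc.trans_le hP
  have hP0' : 0 < P' := hc.trans_le hP'
  have hPi : P⁻¹ ≤ 1 / c := by
    rw [one_div]
    exact inv_anti₀ hc hP
  have hPi0 : 0 < P⁻¹ := inv_pos.2 hP0
  have hvy : |vy| ≤ 1 / c + 1 := by
    have h3 : |vy| ≤ |vy - P⁻¹| + |P⁻¹| := by
      have := abs_add_le (vy - P⁻¹) P⁻¹
      rwa [sub_add_cancel] at this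
    rw [abs_of_pos hPi0] at h3
    linarith
  have hvy2 : vy ^ 2 ≤ (1 / c + 1) ^ 2 := by
    rw [← sq_abs]
    exact pow_le_pow_left₀ (abs_nonneg _) hvy 2
  have e1 : vy * P - 1 = (vy - P⁻¹) * P := by
    rw [sub_mul, inv_mul_cancel₀ hP0.ne']
  have h3 : |vy * P - 1| ≤ τ * B := by
    rw [e1, abs_mul, abs_of_pos hP0]
    exact mul_le_mul h1 hPB hP0.le hτ0
  have h4 : |vy * P' - 1| ≤ τ * B + (1 / c + 1) * τ := by
    have e2 : vy * P' - 1 = (vy * P - 1) + vy * (P' - P) := by ring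
    rw [e2]
    refine (abs_add_le _ _).trans (add_le_add h3 ?_)
    rw [abs_mul]
    exact mul_le_mul hvy h2 (abs_nonneg _) (by positivity)
  have hcc : 0 < 1 / c := by positivity
  have hB : τ * B ≤ 1 / 4 := by nlinarith
  have h5 : |vy * P - 1| ≤ 1 / 4 := h3.trans hB
  have h6 : |vy * P' - 1| ≤ 1 / 4 := by
    refine h4.trans ?_
    nlinarith
  have h7 := abs_le.1 h5
  have h8 := abs_le.1 h6
  have h9 : (vy * P) * (vy * P') ≤ 2 := by
    have : (vy * P) * (vy * P') ≤ (5 / 4) * (5 / 4) := by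
      apply mul_le_mul <;> linarith
    linarith
  have hq : 0 ≤ b ^ 2 / (P * P') := by positivity
  have e3 : vy ^ 2 * b ^ 2 = ((vy * P) * (vy * P')) * (b ^ 2 / (P * P')) := by
    field_simp
  have h10 : vy ^ 2 * b ^ 2 ≤ 2 * (b ^ 2 / (P * P')) := by
    rw [e3]
    exact mul_le_mul_of_nonneg_right h9 hq
  have h11 : vy ^ 2 * a ^ 2 ≤ (1 / c + 1) ^ 2 * a ^ 2 :=
    mul_le_mul_of_nonneg_right hvy2 (sq_nonneg a)
  have h12 : 0 ≤ (1 / c + 1) ^ 2 * (b ^ 2 / (P * P')) := by positivity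
  have h13 : 0 ≤ 2 * a ^ 2 := by positivity
  calc vy ^ 2 * (a ^ 2 + b ^ 2) = vy ^ 2 * a ^ 2 + vy ^ 2 * b ^ 2 := by ring
    _ ≤ (1 / c + 1) ^ 2 * a ^ 2 + 2 * (b ^ 2 / (P * P')) := add_le_add h11 h10
    _ ≤ ((1 / c + 1) ^ 2 + 2) * (a ^ 2 + b ^ 2 / (P * P')) := by
      have e4 : ((1 / c + 1) ^ 2 + 2) * (a ^ 2 + b ^ 2 / (P * P')) =
        (1 / c + 1) ^ 2 * a ^ 2 + 2 * (b ^ 2 / (P * P')) +
          ((1 / c + 1) ^ 2 * (b ^ 2 / (P * P')) + 2 * a ^ 2) := by ring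
      rw [e4]
      linarith

theorem LOB_pt3 (P P' B a b : ℝ) (hP : 0 < P) (hP' : 0 < P') (hB : P ≤ B) (hB' : P' ≤ B + 1) :
    b ^ 2 + a ^ 2 ≤ (1 + (B + 1) ^ 2) * (a ^ 2 + b ^ 2 / (P * P')) := by
  have hB0 : 0 < B := hP.trans_le hB
  have hPP : P * P' ≤ (B + 1) ^ 2 := by
    rw [sq]
    exact mul_le_mul (by linarith) hB' hP'.le (by linarith)
  have e1 : b ^ 2 = (P * P') * (b ^ 2 / (P * P')) := by
    field_simp
  have hq : 0 ≤ b ^ 2 / (P * P') := by positivity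
  have h1 : b ^ 2 ≤ (B + 1) ^ 2 * (b ^ 2 / (P * P')) := by
    calc b ^ 2 = (P * P') * (b ^ 2 / (P * P')) := e1
      _ ≤ _ := mul_le_mul_of_nonneg_right hPP hq
  have h2 : 0 ≤ (B + 1) ^ 2 * a ^ 2 := by positivity
  have e2 : (1 + (B + 1) ^ 2) * (a ^ 2 + b ^ 2 / (P * P')) =
    a ^ 2 + (B + 1) ^ 2 * (b ^ 2 / (P * P')) + (b ^ 2 / (P * P') + (B + 1) ^ 2 * a ^ 2) := by ring
  rw [e2]
  linarith

theorem LOB_bound (f : ℝ × ℝ → ℝ) (hf : Continuous f) (R : ℝ) :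
    ∃ B : ℝ, ∀ p : ℝ × ℝ, |p.1| ≤ R → |p.2| ≤ R → f p ≤ B := by
  have hK : IsCompact (Metric.closedBall (0 : ℝ × ℝ) R) := isCompact_closedBall _ _
  obtain ⟨B, hB⟩ := hK.bddAbove_image hf.continuousOn
  refine ⟨B, fun p h1 h2 => hB (mem_image_of_mem f ?_)⟩
  rw [mem_closedBall_zero_iff, Prod.norm_def]
  exact max_le h1 h2

theorem LOB_supp (η : ℝ × ℝ → ℝ) (h : HasCompactSupport η) :
    ∃ R2 : ℝ, ∀ p : ℝ × ℝ, η p ≠ 0 → |p.1| ≤ R2 ∧ |p.2| ≤ R2 := by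
  obtain ⟨R2, hR2⟩ := (IsCompact.isBounded h).subset_closedBall (0 : ℝ × ℝ)
  refine ⟨R2, fun p hp => ?_⟩
  have h1 : p ∈ Metric.closedBall (0 : ℝ × ℝ) R2 := hR2 (subset_tsupport _ hp)
  rw [mem_closedBall_zero_iff, Prod.norm_def] at h1
  exact ⟨(le_max_left _ _).trans h1, (le_max_right _ _).trans h1⟩

theorem LOB_claim (hC : CUT_stmt) (hE : ENE_stmt) (hU : UNI_stmt) (hV : UNC_stmt) (hA : CAL_stmt)
    (u : ℝ × ℝ → ℝ) (c : ℝ) (hu : EntireSol u) (hc : 0 < c) (hb : ∀ p, c ≤ dx (dx u) p)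
    (R ε : ℝ) (hε : 0 < ε) : ∃ h0 : ℝ, 0 < h0 ∧ ∀ h : ℝ, 0 < h → h < h0 →
      ∫ p in Icc (-R) R ×ˢ Icc (-R) R, ((qy h (dx (dx u)) p) ^ 2 + (qy h (dx (dy u)) p) ^ 2) ≤
        ε := by
  obtain ⟨hu2, -, -, hprod⟩ := hu
  obtain ⟨-, -, hdx, hdy, -, -⟩ := hA u 1 hu2 one_ne_zero
  have c11 : Continuous (dx (dx u)) :=
    (hdx.continuous_fderiv (by norm_num)).clm_apply continuous_const
  have c12 : Continuous (dx (dy u)) :=
    (hdy.continuous_fderiv (by norm_num)).clm_apply continuous_const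
  have c22 : Continuous (dy (dy u)) :=
    (hdy.continuous_fderiv (by norm_num)).clm_apply continuous_const
  have e22 : ∀ p, dy (dy u) p = (dx (dx u) p)⁻¹ := fun p => eq_inv_of_mul_eq_one_right (hprod p)
  have pos11 : ∀ p, 0 < dx (dx u) p := fun p => hc.trans_le (hb p)
  obtain ⟨B, hB⟩ := LOB_bound (dx (dx u)) c11 R
  set K : ℝ := (1 / c + 1) ^ 2 + 2 with hK
  have hKpos : 0 < K := by positivity
  set C1 : ℝ := 1 + (B + 1) ^ 2 with hC1
  have hC1pos : 0 < C1 := by positivity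
  obtain ⟨η, hη, hηc, hη0, hη1, hηR, hηE⟩ := hC R (ε / (4 * K * C1)) (by positivity)
  obtain ⟨R2, hR2⟩ := LOB_supp η hηc
  obtain ⟨B2, hB2⟩ := LOB_bound (dx (dx u)) c11 R2
  set A : ℝ := |B2| + 1 / c + 1 with hAdef
  have hApos : 0 < A := by positivity
  set τ : ℝ := min 1 (1 / (4 * A)) with hτdef
  have hτpos : 0 < τ := by positivity
  have hτ1 : τ ≤ 1 := min_le_left _ _
  have hτ2 : τ * (|B2| + 1 / c + 1) ≤ 1 / 4 := by
    have h1 : τ ≤ 1 / (4 * A) := min_le_right _ _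
    calc τ * A ≤ 1 / (4 * A) * A := mul_le_mul_of_nonneg_right h1 hApos.le
      _ = 1 / 4 := by field_simp
  obtain ⟨t1, ht1, H1⟩ := hU (dy u) R2 τ hdy hτpos
  obtain ⟨t2, ht2, H2⟩ := hV (dx (dx u)) R2 τ c11 hτpos
  obtain ⟨t3, ht3, H3⟩ := hV (dx (dx u)) R 1 c11 one_pos
  refine ⟨min t1 (min t2 t3), by positivity, ?_⟩
  intro h hh hlt
  have hl1 : h < t1 := hlt.trans_le (min_le_left _ _)
  have hl2 : h < t2 := hlt.trans_le ((min_le_right _ _).trans (min_le_left _ _))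
  have hl3 : h < t3 := hlt.trans_le ((min_le_right _ _).trans (min_le_right _ _))
  obtain ⟨-, hv2, -, -, -, -, -, hxv, hyv, -, -, -, hxx, hyy, hxy⟩ := hA u h hu2 hh.ne'
  have hD : ∀ p, dx (dy (qy h u)) p ^ 2 - dx (dx (qy h u)) p * dy (dy (qy h u)) p =
      (qy h (dx (dy u)) p) ^ 2 + (qy h (dx (dx u)) p) ^ 2 /
        (dx (dx u) p * dx (dx u) (p.1, p.2 + h)) := by
    intro p
    rw [hxx, hyy, hxy]
    have h1 := LOB_pt1 (dx (dx u) p) (dx (dx u) (p.1, p.2 + h)) h (pos11 _) (pos11 _) hh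
    have h2 : qy h (dx (dx u)) p * qy h (dy (dy u)) p =
      ((dx (dx u) (p.1, p.2 + h) - dx (dx u) p) / h) *
        (((dx (dx u) (p.1, p.2 + h))⁻¹ - (dx (dx u) p)⁻¹) / h) := by
      unfold qy
      rw [e22, e22]
    have h3 : qy h (dx (dx u)) p = (dx (dx u) (p.1, p.2 + h) - dx (dx u) p) / h := rfl
    rw [h2, sub_eq_add_neg, h1, h3]
  have hD0 : ∀ p, 0 ≤ dx (dy (qy h u)) p ^ 2 - dx (dx (qy h u)) p * dy (dy (qy h u)) p := by
    intro p
    rw [hD]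
    have := pos11 p
    have := pos11 (p.1, p.2 + h)
    positivity
  -- the energy inequality
  have hen := hE (qy h u) η (fun t => t) (fun _ => 1) (fun t => t) (fun _ => 1) K 1 hv2 hη hηc
    (fun t => hasDerivAt_id t) continuous_const (fun t => hasDerivAt_id t) continuous_const
    (fun _ => zero_le_one) (fun _ => le_rfl) hKpos.le (by
      intro p hp _
      obtain ⟨hp1, hp2⟩ := hR2 p hp
      refine ⟨by rw [one_mul]; exact hD0 p, ?_⟩
      rw [one_mul, hD p, hxy, hxx, hyv]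
      have h1 := (H1 h hh hl1 p hp1 hp2).2.1
      rw [e22] at h1
      have h2 := (H2 h hh hl2 p hp1 hp2).2
      exact LOB_pt2 c _ _ τ |B2| _ _ _ hc (hb p) (hb _)
        ((hB2 p hp1 hp2).trans (le_abs_self _)) hτpos.le hτ1 hτ2 h1 h2)
  have hen2 : ∫ p, η p ^ 2 * (1 * 1 *
      (dx (dy (qy h u)) p ^ 2 - dx (dx (qy h u)) p * dy (dy (qy h u)) p)) ≤ ε / C1 := by
    refine hen.trans ?_
    calc 4 * K * 1 * ∫ p, (dx η p ^ 2 + dy η p ^ 2)
        ≤ 4 * K * 1 * (ε / (4 * K * C1)) :=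
          mul_le_mul_of_nonneg_left hηE (by positivity)
      _ = ε / C1 := by field_simp
  -- continuity and integrability
  have cq : ∀ f : ℝ × ℝ → ℝ, Continuous f → Continuous (qy h f) := by
    intro f hf
    unfold qy
    exact ((hf.comp (continuous_fst.prodMk (continuous_snd.add continuous_const))).sub hf).div_const
      h
  have cD : Continuous (fun p => dx (dy (qy h u)) p ^ 2 -
      dx (dx (qy h u)) p * dy (dy (qy h u)) p) := by
    rw [hxx, hyy, hxy]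
    exact ((cq _ c12).pow 2).sub ((cq _ c11).mul (cq _ c22))
  have hη2 : HasCompactSupport (fun q => η q ^ 2) := by
    have : (fun q => η q ^ 2) = (fun q => η q * η q) := funext fun q => sq _
    rw [this]
    exact hηc.mul_right
  set F : ℝ × ℝ → ℝ := fun p => η p ^ 2 * (1 * 1 *
      (dx (dy (qy h u)) p ^ 2 - dx (dx (qy h u)) p * dy (dy (qy h u)) p)) with hF
  have cF : Continuous F := (hη.continuous.pow 2).mul (continuous_const.mul cD)
  have iF : Integrable F :=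
    cF.integrable_of_hasCompactSupport hη2.mul_right
  have F0 : ∀ p, 0 ≤ F p := by
    intro p
    have := hD0 p
    simp only [hF, one_mul]
    positivity
  have hbox : MeasurableSet (Icc (-R) R ×ˢ Icc (-R) R) :=
    measurableSet_Icc.prod measurableSet_Icc
  have hcomp : IsCompact (Icc (-R) R ×ˢ Icc (-R) R) := isCompact_Icc.prod isCompact_Icc
  have iS : IntegrableOn (fun p => (qy h (dx (dx u)) p) ^ 2 + (qy h (dx (dy u)) p) ^ 2)
      (Icc (-R) R ×ˢ Icc (-R) R) :=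
    (((cq _ c11).pow 2).add ((cq _ c12).pow 2)).continuousOn.integrableOn_compact hcomp
  calc ∫ p in Icc (-R) R ×ˢ Icc (-R) R,
        ((qy h (dx (dx u)) p) ^ 2 + (qy h (dx (dy u)) p) ^ 2)
      ≤ ∫ p in Icc (-R) R ×ˢ Icc (-R) R, C1 * F p := by
        refine setIntegral_mono_on iS (iF.const_mul C1).integrableOn hbox ?_
        intro p hp
        have hp1 : |p.1| ≤ R := abs_le.2 ⟨hp.1.1, hp.1.2⟩
        have hp2 : |p.2| ≤ R := abs_le.2 ⟨hp.2.1, hp.2.2⟩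
        simp only [hF]
        rw [hηR p hp1 hp2, one_pow, one_mul, one_mul, one_mul, hD p]
        have h1 := (H3 h hh hl3 p hp1 hp2).2
        have h2 := abs_le.1 h1
        have h3 := hB p hp1 hp2
        exact LOB_pt3 _ _ B _ _ (pos11 _) (pos11 _) h3 (by linarith)
    _ ≤ ∫ p, C1 * F p :=
        setIntegral_le_integral (iF.const_mul C1)
          (Filter.Eventually.of_forall (fun p => mul_nonneg hC1pos.le (F0 p)))
    _ = C1 * ∫ p, F p := integral_const_mul _ _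
    _ ≤ C1 * (ε / C1) := mul_le_mul_of_nonneg_left hen2 hC1pos.le
    _ = ε := by field_simp

theorem LOB_proof (hC : CUT_stmt) (hE : ENE_stmt) (hU : UNI_stmt) (hV : UNC_stmt) (hA : CAL_stmt)
    (hT : TELY_stmt) : LOB_stmt := by
  intro u c hu hc hb x y y'
  have hu2 : ContDiff ℝ 2 u := hu.1
  obtain ⟨-, -, hdx, hdy, -, -⟩ := hA u 1 hu2 one_ne_zero
  have c11 : Continuous (dx (dx u)) :=
    (hdx.continuous_fderiv (by norm_num)).clm_apply continuous_const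
  have c12 : Continuous (dx (dy u)) :=
    (hdy.continuous_fderiv (by norm_num)).clm_apply continuous_const
  set R : ℝ := |x| + |y| + |y'| + 1 with hR
  have ax := abs_nonneg x
  have ay := abs_nonneg y
  have ay' := abs_nonneg y'
  have mx : x ∈ Ioo (-R) R := abs_lt.1 (by linarith)
  have my : y ∈ Ioo (-R) R := abs_lt.1 (by linarith)
  have my' : y' ∈ Ioo (-R) R := abs_lt.1 (by linarith)
  have hcomp : IsCompact (Icc (-R) R ×ˢ Icc (-R) R) := isCompact_Icc.prod isCompact_Icc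
  have cq : ∀ (h : ℝ) (f : ℝ × ℝ → ℝ), Continuous f → Continuous (qy h f) := by
    intro h f hf
    unfold qy
    exact ((hf.comp (continuous_fst.prodMk (continuous_snd.add continuous_const))).sub hf).div_const
      h
  have iq : ∀ (h : ℝ) (f : ℝ × ℝ → ℝ), Continuous f →
      IntegrableOn (fun p => (qy h f p) ^ 2) (Icc (-R) R ×ˢ Icc (-R) R) :=
    fun h f hf => ((cq h f hf).pow 2).continuousOn.integrableOn_compact hcomp
  refine ⟨?_, ?_⟩
  · refine hT (dx (dx u)) (-R) R (-R) R c11 ?_ x y y' mx my my'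
    intro ε hε
    obtain ⟨h0, hh0, H⟩ := LOB_claim hC hE hU hV hA u c hu hc hb R ε hε
    refine ⟨h0, hh0, fun h hh hlt => le_trans ?_ (H h hh hlt)⟩
    refine integral_mono (iq h _ c11) ((iq h _ c11).add (iq h _ c12)) ?_
    intro p
    exact le_add_of_nonneg_right (sq_nonneg _)
  · refine hT (dx (dy u)) (-R) R (-R) R c12 ?_ x y y' mx my my'
    intro ε hε
    obtain ⟨h0, hh0, H⟩ := LOB_claim hC hE hU hV hA u c hu hc hb R ε hε
    refine ⟨h0, hh0, fun h hh hlt => le_trans ?_ (H h hh hlt)⟩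
    refine integral_mono (iq h _ c12) ((iq h _ c11).add (iq h _ c12)) ?_
    intro p
    exact le_add_of_nonneg_left (sq_nonneg _)

end Pool.Agent.H629R2.EU
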