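import Mathlib
import Pool.Agent.H629R2.EU.Stubs

set_option autoImplicit false

/-! LOC: local constancy in the first variable (helper896). -/

namespace Pool.Agent.H629R2.EU

open MeasureTheory Set

namespace LOCaux

/-- the function `P` -/
noncomputable def Pf (b0 κ t : ℝ) : ℝ := -(t - b0) / ((t - b0) ^ 2 + κ)

/-- the derivative of `P` -/
noncomputable def Pd (b0 κ t : ℝ) : ℝ := ((t - b0) ^ 2 - κ) / ((t - b0) ^ 2 + κ) ^ 2

/-- the function `k` -/
noncomputable def kf (al be t : ℝ) : ℝ := max 0 ((t - al) * (be - t))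

theorem Pf_deriv (b0 κ : ℝ) (hκ : 0 < κ) (t : ℝ) :
    HasDerivAt (Pf b0 κ) (Pd b0 κ t) t := by
  have h1 : HasDerivAt (fun t : ℝ => -(t - b0)) (-1) t := ((hasDerivAt_id t).sub_const b0).neg
  have h2 : HasDerivAt (fun t : ℝ => (t - b0) ^ 2 + κ) (2 * (t - b0)) t := by
    have h := (((hasDerivAt_id' t).sub_const b0).pow 2).add_const κ
    have e : ((2 : ℕ) : ℝ) * (t - b0) ^ (2 - 1) * 1 = 2 * (t - b0) := by norm_num
    rw [e] at h
    exact h
  have h3 : (t - b0) ^ 2 + κ ≠ 0 := by positivity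
  have h4 := h1.div h2 h3
  have e : Pd b0 κ t = (-1 * ((t - b0) ^ 2 + κ) - -(t - b0) * (2 * (t - b0))) /
      ((t - b0) ^ 2 + κ) ^ 2 := by
    unfold Pd
    congr 1
    ring
  rw [e]
  exact h4

theorem Pd_cont (b0 κ : ℝ) (hκ : 0 < κ) : Continuous (Pd b0 κ) := by
  unfold Pd
  refine Continuous.div (by fun_prop) (by fun_prop) ?_
  intro t
  positivity

theorem Pd_lower (b0 δ T t : ℝ) (hδ : 0 < δ) (h1 : δ ≤ |t - b0|) (h2 : |t - b0| ≤ T) :
    (δ ^ 2 / 2) / (T ^ 2 + δ ^ 2 / 2) ^ 2 ≤ Pd b0 (δ ^ 2 / 2) t := by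
  have hs1 : δ ^ 2 ≤ (t - b0) ^ 2 := by
    rw [← sq_abs (t - b0)]
    exact pow_le_pow_left₀ hδ.le h1 2
  have hs2 : (t - b0) ^ 2 ≤ T ^ 2 := by
    rw [← sq_abs (t - b0)]
    exact pow_le_pow_left₀ (abs_nonneg _) h2 2
  unfold Pd
  have hδ2 : 0 < δ ^ 2 := by positivity
  apply div_le_div₀
  · linarith
  · linarith
  · positivity
  · apply pow_le_pow_left₀ (by positivity)
    linarith

theorem Pd_nonneg (b0 δ t : ℝ) (hδ : 0 < δ) (h1 : δ ≤ |t - b0|) :
    0 ≤ Pd b0 (δ ^ 2 / 2) t := by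
  refine le_trans ?_ (Pd_lower b0 δ (|t - b0|) t hδ h1 le_rfl)
  positivity

theorem Pf_sq (b0 δ t : ℝ) (hδ : 0 < δ) (h1 : δ ≤ |t - b0|) :
    Pf b0 (δ ^ 2 / 2) t ^ 2 ≤ 2 * Pd b0 (δ ^ 2 / 2) t := by
  have hs1 : δ ^ 2 ≤ (t - b0) ^ 2 := by
    rw [← sq_abs (t - b0)]
    exact pow_le_pow_left₀ hδ.le h1 2
  have hδ2 : 0 < δ ^ 2 := by positivity
  unfold Pf Pd
  rw [div_pow, ← mul_div_assoc]
  apply div_le_div_of_nonneg_right _ (by positivity)
  nlinarith

theorem kf_nonneg (al be t : ℝ) : 0 ≤ kf al be t := le_max_left _ _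

theorem kf_cont (al be : ℝ) : Continuous (kf al be) := by
  unfold kf
  fun_prop

theorem kf_le (al be t : ℝ) : kf al be t ≤ (be - al) ^ 2 := by
  unfold kf
  apply max_le (by positivity)
  nlinarith [sq_nonneg (t - al + t - be), sq_nonneg (be - al)]

theorem kf_ne (al be t : ℝ) (h : al < be) (ht : kf al be t ≠ 0) : al < t ∧ t < be := by
  have h1 : 0 < (t - al) * (be - t) := by
    by_contra h2
    apply ht
    unfold kf
    exact max_eq_left (not_lt.1 h2)
  constructor
  · by_contra h2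
    have h3 : t - al ≤ 0 := by linarith
    have h4 : 0 ≤ be - t := by linarith
    nlinarith [mul_nonneg (neg_nonneg.2 h3) h4]
  · by_contra h2
    have h3 : be - t ≤ 0 := by linarith
    have h4 : 0 ≤ t - al := by linarith
    nlinarith [mul_nonneg (neg_nonneg.2 h3) h4]

theorem kf_lower (al be t x y : ℝ) (hx : 0 ≤ x) (hy : 0 ≤ y) (h1 : x ≤ t - al) (h2 : y ≤ be - t) :
    x * y ≤ kf al be t := by
  unfold kf
  refine le_trans ?_ (le_max_right _ _)
  exact mul_le_mul h1 h2 hy (hx.trans h1)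

theorem ptw (p p' w w' h c A2 : ℝ) (hp : 0 < p) (hp' : 0 < p') (h1 : p * w = 1)
    (h2 : p' * w' = 1) :
    0 ≤ c ^ 2 - (p' - p) / h * ((w' - w) / h) ∧
    (p * p' ≤ A2 → c ^ 2 + ((p' - p) / h) ^ 2 ≤
      (1 + A2) * (c ^ 2 - (p' - p) / h * ((w' - w) / h))) := by
  have hpp : 0 < p * p' := mul_pos hp hp'
  have e0 : -((p' - p) / h * ((w' - w) / h)) = ((p' - p) / h) ^ 2 / (p * p') := by
    have hw : w = 1 / p := by field_simp; linarith
    have hw' : w' = 1 / p' := by field_simp; linarith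
    rw [hw, hw']
    by_cases hh : h = 0
    · simp [hh]
    · field_simp
      ring
  have hA : 0 ≤ -((p' - p) / h * ((w' - w) / h)) := by
    rw [e0]; positivity
  have e1 : ((p' - p) / h) ^ 2 = -((p' - p) / h * ((w' - w) / h)) * (p * p') := by
    rw [e0]; field_simp
  constructor
  · nlinarith [sq_nonneg c]
  · intro hle
    have h3 : ((p' - p) / h) ^ 2 ≤ -((p' - p) / h * ((w' - w) / h)) * A2 := by
      rw [e1]
      exact mul_le_mul_of_nonneg_left hle hA
    have hA2 : 0 ≤ A2 := hpp.le.trans hle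
    nlinarith [sq_nonneg c, mul_nonneg hA2 (sq_nonneg c)]

theorem dx_cont (f : ℝ × ℝ → ℝ) (hf : ContDiff ℝ 1 f) : Continuous (dx f) := by
  unfold dx
  exact (hf.continuous_fderiv (by norm_num)).clm_apply continuous_const

theorem dy_cont (f : ℝ × ℝ → ℝ) (hf : ContDiff ℝ 1 f) : Continuous (dy f) := by
  unfold dy
  exact (hf.continuous_fderiv (by norm_num)).clm_apply continuous_const

theorem u11_pos (u : ℝ × ℝ → ℝ) (hu : EntireSol u) (p : ℝ × ℝ) : 0 < dx (dx u) p := by
  rcases lt_or_eq_of_le (hu.2.1 p) with h | h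
  · exact h
  · have := hu.2.2.2 p
    rw [← h, zero_mul] at this
    exact absurd this (by norm_num)

end LOCaux

open LOCaux in
theorem LOC_proof (hC : CUT_stmt) (hE : ENE_stmt) (hU : UNI_stmt) (hV : UNC_stmt)
    (hA : CAL_stmt) (hT : TEL_stmt) : LOC_stmt := by
  intro u a1 a2 b0 δ hu ha1 ha12 hδ hom z0 hz1 hz2
  have hu2 := hu.1
  have hcal := hA u 1 hu2 one_ne_zero
  have hdxu : ContDiff ℝ 1 (dx u) := hcal.2.2.1
  have hdyu : ContDiff ℝ 1 (dy u) := hcal.2.2.2.1
  have hc11 : Continuous (dx (dx u)) := dx_cont _ hdxu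
  have hc12 : Continuous (dx (dy u)) := dx_cont _ hdyu
  set q0 := dx (dx u) z0 with hq0
  set al := (a1 + q0) / 2 with hal
  set be := (a2 + q0) / 2 with hbe
  set M := (be - al) ^ 2 with hM
  -- the box
  obtain ⟨r, hr, hbox⟩ : ∃ r : ℝ, 0 < r ∧ ∀ p ∈ Icc (z0.1 - r) (z0.1 + r) ×ˢ
      Icc (z0.2 - r) (z0.2 + r), (al + q0) / 2 < dx (dx u) p ∧ dx (dx u) p < (be + q0) / 2 := by
    have hopen : IsOpen {p | (al + q0) / 2 < dx (dx u) p ∧ dx (dx u) p < (be + q0) / 2} :=
      (isOpen_lt continuous_const hc11).inter (isOpen_lt hc11 continuous_const)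
    have hmem : z0 ∈ {p | (al + q0) / 2 < dx (dx u) p ∧ dx (dx u) p < (be + q0) / 2} := by
      constructor
      · show (al + q0) / 2 < q0
        rw [hal]; linarith
      · show q0 < (be + q0) / 2
        rw [hbe]; linarith
    obtain ⟨r0, hr0, hb⟩ := Metric.isOpen_iff.1 hopen z0 hmem
    refine ⟨r0 / 2, by positivity, ?_⟩
    rintro ⟨x, y⟩ ⟨⟨h1, h2⟩, h3, h4⟩
    apply hb
    rw [Metric.mem_ball, Prod.dist_eq, Real.dist_eq, Real.dist_eq]
    simp only at h1 h2 h3 h4 ⊢
    apply max_lt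
    · rw [abs_lt]; constructor <;> linarith
    · rw [abs_lt]; constructor <;> linarith
  set S := Icc (z0.1 - r) (z0.1 + r) ×ˢ Icc (z0.2 - r) (z0.2 + r) with hS
  have hScomp : IsCompact S := isCompact_Icc.prod isCompact_Icc
  have hSmeas : MeasurableSet S := hScomp.measurableSet
  obtain ⟨S0, hS0⟩ := hScomp.exists_bound_of_continuousOn
    (f := fun p => dx (dy u) p - b0) (hc12.sub continuous_const).continuousOn
  set R := |z0.1| + |z0.2| + r with hR
  have hSR : ∀ p ∈ S, |p.1| ≤ R ∧ |p.2| ≤ R := by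
    rintro ⟨x, y⟩ ⟨⟨h1, h2⟩, h3, h4⟩
    simp only at h1 h2 h3 h4 ⊢
    have g1 := abs_nonneg z0.1
    have g2 := abs_nonneg z0.2
    have g3 := le_abs_self z0.1
    have g4 := le_abs_self z0.2
    have g5 := neg_abs_le z0.1
    have g6 := neg_abs_le z0.2
    constructor <;> rw [abs_le] <;> constructor <;> linarith
  set κ := δ ^ 2 / 2 with hκ
  have hκ0 : 0 < κ := by positivity
  set c1 := (q0 - al) / 4 * ((be - q0) / 4) with hc1
  have hc1p : 0 < c1 := by
    apply mul_pos
    · rw [hal]; linarith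
    · rw [hbe]; linarith
  set T := S0 + δ with hTd
  set c2 := κ / (T ^ 2 + κ) ^ 2 with hc2
  have hc2p : 0 < c2 := by positivity
  set A2 := a2 * (a2 + 1) with hA2
  have hA2p : 0 < A2 := by
    have : 0 < a2 := ha1.trans ha12
    positivity
  set K := 2 * (1 + A2) with hK
  set C := (1 + A2) / (c1 * c2) with hCd
  have hCp : 0 < C := by positivity
  set τ := min (min ((q0 - al) / 4) ((be - q0) / 4)) (min (min (al - a1) (a2 - be)) δ) with hτ
  have hτp : 0 < τ := by
    rw [hτ]
    refine lt_min (lt_min ?_ ?_) (lt_min (lt_min ?_ ?_) hδ)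
    · rw [hal]; linarith
    · rw [hbe]; linarith
    · rw [hal]; linarith
    · rw [hbe]; linarith
  have hτ1 : τ ≤ (q0 - al) / 4 := (min_le_left _ _).trans (min_le_left _ _)
  have hτ2 : τ ≤ (be - q0) / 4 := (min_le_left _ _).trans (min_le_right _ _)
  have hτ3 : τ ≤ al - a1 := (min_le_right _ _).trans ((min_le_left _ _).trans (min_le_left _ _))
  have hτ4 : τ ≤ a2 - be := (min_le_right _ _).trans ((min_le_left _ _).trans (min_le_right _ _))
  have hτ5 : τ ≤ δ := (min_le_right _ _).trans (min_le_right _ _)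
  have hMn : 0 ≤ M := by rw [hM]; positivity
  -- the main claim
  have claim : ∀ ε : ℝ, 0 < ε → ∃ h0 : ℝ, 0 < h0 ∧ ∀ h : ℝ, 0 < h → h < h0 →
      ∫ p in S, ((qx h (dx (dx u)) p) ^ 2 + (qx h (dx (dy u)) p) ^ 2) ≤ ε := by
    intro ε hε
    obtain ⟨η, hη1, hηc, hη0, hηle, hηR, hηE⟩ := hC R (ε / (C * (4 * K * M + 1))) (by positivity)
    obtain ⟨R1, hR1⟩ := hηc.isCompact.isBounded.subset_closedBall (0 : ℝ × ℝ)
    set R2 := max R R1 with hR2
    obtain ⟨ha, hha, H1⟩ := hU (dx u) R2 τ hdxu hτp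
    obtain ⟨hb, hhb, H2⟩ := hU (dy u) R2 τ hdyu hτp
    obtain ⟨hc, hhc, H3⟩ := hV (dx (dx u)) R2 1 hc11 one_pos
    refine ⟨min ha (min hb hc), lt_min hha (lt_min hhb hhc), ?_⟩
    intro h hh0 hh
    have hh1 : h < ha := hh.trans_le (min_le_left _ _)
    have hh2 : h < hb := hh.trans_le ((min_le_right _ _).trans (min_le_left _ _))
    have hh3 : h < hc := hh.trans_le ((min_le_right _ _).trans (min_le_right _ _))
    obtain ⟨hv2, -, -, -, -, hvx, hvy, -, -, hvxx, hvyy, hvxy, -, -, -⟩ := hA u h hu2 hh0.ne'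
    set v := qx h u with hv
    have hcalv := hA v 1 hv2 one_ne_zero
    have hdxv : ContDiff ℝ 1 (dx v) := hcalv.2.2.1
    have hdyv : ContDiff ℝ 1 (dy v) := hcalv.2.2.2.1
    have hD0 : ∀ p, 0 ≤ dx (dy v) p ^ 2 - dx (dx v) p * dy (dy v) p := by
      intro p
      rw [hvxx, hvyy]
      unfold qx
      exact (ptw _ _ _ _ h _ 0 (u11_pos u hu _) (u11_pos u hu _) (hu.2.2.2 _) (hu.2.2.2 _)).1
    have hD1 : ∀ p, |p.1| ≤ R2 → |p.2| ≤ R2 → dx (dx u) p < a2 →
        dx (dy v) p ^ 2 + dx (dx v) p ^ 2 ≤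
          (1 + A2) * (dx (dy v) p ^ 2 - dx (dx v) p * dy (dy v) p) := by
      intro p hp1 hp2 hpa
      rw [hvxx, hvyy]
      unfold qx
      refine (ptw _ _ _ _ h _ A2 (u11_pos u hu _) (u11_pos u hu _) (hu.2.2.2 _)
        (hu.2.2.2 _)).2 ?_
      have h4 := (abs_le.1 (H3 h hh0 hh3 p hp1 hp2).1).2
      have h5 : dx (dx u) (p.1 + h, p.2) ≤ a2 + 1 := by linarith
      exact mul_le_mul hpa.le h5 (u11_pos u hu _).le (ha1.trans ha12).le
    -- the support
    have hsup : ∀ p, η p ≠ 0 → |p.1| ≤ R2 ∧ |p.2| ≤ R2 := by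
      intro p hp
      have h4 : p ∈ tsupport η := subset_tsupport _ hp
      have h5 := hR1 h4
      rw [Metric.mem_closedBall, dist_zero_right, Prod.norm_def, max_le_iff, Real.norm_eq_abs,
        Real.norm_eq_abs] at h5
      exact ⟨h5.1.trans (le_max_right _ _), h5.2.trans (le_max_right _ _)⟩
    have hkey : ∀ p, |p.1| ≤ R2 → |p.2| ≤ R2 → kf al be (dx v p) ≠ 0 →
        a1 < dx (dx u) p ∧ dx (dx u) p < a2 ∧ δ ≤ |dy v p - b0| := by
      intro p hp1 hp2 hk
      have hab : al < be := by rw [hal, hbe]; linarith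
      obtain ⟨h4, h5⟩ := kf_ne al be _ hab hk
      have h6 := abs_le.1 (H1 h hh0 hh1 p hp1 hp2).1
      have h7 := (H2 h hh0 hh2 p hp1 hp2).1
      rw [hvx] at h4 h5
      have h8 : a1 < dx (dx u) p := by linarith [h6.1, h6.2]
      have h9 : dx (dx u) p < a2 := by linarith [h6.1, h6.2]
      refine ⟨h8, h9, ?_⟩
      have h10 := hom p h8 h9
      rw [hvy]
      have h11 : |dx (dy u) p - b0| ≤ |qx h (dy u) p - b0| + |qx h (dy u) p - dx (dy u) p| := by
        have : dx (dy u) p - b0 = (qx h (dy u) p - b0) - (qx h (dy u) p - dx (dy u) p) := by ring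
        rw [this]
        exact abs_sub _ _
      linarith
    -- the energy
    set F : ℝ × ℝ → ℝ := fun p => η p ^ 2 * (Pd b0 κ (dy v p) * kf al be (dx v p) *
        (dx (dy v) p ^ 2 - dx (dx v) p * dy (dy v) p)) with hF
    have hF0 : ∀ p, 0 ≤ F p := by
      intro p
      rw [hF]
      by_cases h4 : η p = 0
      · simp [h4]
      by_cases h5 : kf al be (dx v p) = 0
      · simp [h5]
      obtain ⟨h6, h7⟩ := hsup p h4
      have h8 := (hkey p h6 h7 h5).2.2
      exact mul_nonneg (sq_nonneg _) (mul_nonneg (mul_nonneg (Pd_nonneg b0 δ _ hδ h8)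
        (kf_nonneg _ _ _)) (hD0 p))
    have hFE : ∫ p, F p ≤ 4 * K * M * ∫ p, (dx η p ^ 2 + dy η p ^ 2) := by
      refine hE v η (Pf b0 κ) (Pd b0 κ) (fun t => ∫ s in (0 : ℝ)..t, kf al be s) (kf al be) K M
        hv2 hη1 hηc (Pf_deriv b0 κ hκ0) (Pd_cont b0 κ hκ0) ?_ (kf_cont al be) (kf_nonneg al be)
        (kf_le al be) (by positivity) ?_
      · intro t
        exact intervalIntegral.integral_hasDerivAt_right
          ((kf_cont al be).intervalIntegrable _ _)
          ((kf_cont al be).stronglyMeasurableAtFilter _ _) (kf_cont al be).continuousAt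
      · intro p h4 h5
        obtain ⟨h6, h7⟩ := hsup p h4
        obtain ⟨h8, h9, h10⟩ := hkey p h6 h7 h5
        have g1 := Pd_nonneg b0 δ _ hδ h10
        have g2 := Pf_sq b0 δ _ hδ h10
        refine ⟨mul_nonneg g1 (hD0 p), ?_⟩
        have g3 := hD1 p h6 h7 h9
        calc Pf b0 κ (dy v p) ^ 2 * (dx (dy v) p ^ 2 + dx (dx v) p ^ 2)
            ≤ (2 * Pd b0 κ (dy v p)) *
              ((1 + A2) * (dx (dy v) p ^ 2 - dx (dx v) p * dy (dy v) p)) :=
              mul_le_mul g2 g3 (by positivity) (by positivity)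
          _ = K * (Pd b0 κ (dy v p) * (dx (dy v) p ^ 2 - dx (dx v) p * dy (dy v) p)) := by
              rw [hK]; ring
    have hcF : Continuous F := by
      rw [hF]
      have g1 : Continuous η := hη1.continuous
      have g2 : Continuous (fun p => Pd b0 κ (dy v p)) := (Pd_cont b0 κ hκ0).comp hdyv.continuous
      have g3 : Continuous (fun p => kf al be (dx v p)) := (kf_cont al be).comp hdxv.continuous
      have g4 : Continuous (dx (dy v)) := dx_cont _ hdyv
      have g5 : Continuous (dx (dx v)) := dx_cont _ hdxv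
      have g6 : Continuous (dy (dy v)) := dy_cont _ hdyv
      exact (g1.pow 2).mul ((g2.mul g3).mul ((g4.pow 2).sub (g5.mul g6)))
    have hFc : HasCompactSupport F := by
      refine hηc.mono ?_
      intro p hp
      rw [Function.mem_support] at hp ⊢
      intro h4
      apply hp
      rw [hF]
      simp [h4]
    have hFi : Integrable F := hcF.integrable_of_hasCompactSupport hFc
    have hq1 : Continuous (dx (dx v)) := dx_cont _ hdxv
    have hq2 : Continuous (dx (dy v)) := dx_cont _ hdyv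
    have hle : ∫ p in S, ((qx h (dx (dx u)) p) ^ 2 + (qx h (dx (dy u)) p) ^ 2) ≤
        ∫ p in S, C * F p := by
      rw [← hvxx, ← hvxy]
      refine setIntegral_mono_on ?_ ?_ hSmeas ?_
      · exact ((hq1.pow 2).add (hq2.pow 2)).continuousOn.integrableOn_compact hScomp
      · exact (continuous_const.mul hcF).continuousOn.integrableOn_compact hScomp
      · intro p hp
        obtain ⟨g1, g2⟩ := hSR p hp
        have g1' : |p.1| ≤ R2 := g1.trans (le_max_left _ _)
        have g2' : |p.2| ≤ R2 := g2.trans (le_max_left _ _)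
        have g3 : η p = 1 := hηR p g1 g2
        obtain ⟨g4, g5⟩ := hbox p hp
        have g6 : a1 < dx (dx u) p := by
          have : a1 < (al + q0) / 2 := by rw [hal]; linarith
          linarith
        have g7 : dx (dx u) p < a2 := by
          have : (be + q0) / 2 < a2 := by rw [hbe]; linarith
          linarith
        have g8 := hom p g6 g7
        have g9 := abs_le.1 (H1 h hh0 hh1 p g1' g2').1
        have g10 := (H2 h hh0 hh2 p g1' g2').1
        have g11 : |dx (dy u) p - b0| ≤ S0 := hS0 p hp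
        have g12 : c1 ≤ kf al be (dx v p) := by
          rw [hc1]
          apply kf_lower
          · rw [hal]; linarith
          · rw [hbe]; linarith
          · rw [hvx]; linarith [g9.1]
          · rw [hvx]; linarith [g9.2]
        have g13 : δ ≤ |dy v p - b0| := by
          rw [hvy]
          have h11 : |dx (dy u) p - b0| ≤
              |qx h (dy u) p - b0| + |qx h (dy u) p - dx (dy u) p| := by
            have : dx (dy u) p - b0 = (qx h (dy u) p - b0) - (qx h (dy u) p - dx (dy u) p) := by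
              ring
            rw [this]
            exact abs_sub _ _
          linarith
        have g14 : |dy v p - b0| ≤ T := by
          rw [hvy, hTd]
          have h11 : |qx h (dy u) p - b0| ≤
              |dx (dy u) p - b0| + |qx h (dy u) p - dx (dy u) p| := by
            have : qx h (dy u) p - b0 = (dx (dy u) p - b0) + (qx h (dy u) p - dx (dy u) p) := by
              ring
            rw [this]
            exact abs_add_le _ _
          linarith
        have g15 : c2 ≤ Pd b0 κ (dy v p) := Pd_lower b0 δ T _ hδ g13 g14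
        have g16 := hD1 p g1' g2' g7
        have g17 := hD0 p
        rw [hF]
        simp only [g3, one_pow, one_mul]
        have g18 : c2 * c1 ≤ Pd b0 κ (dy v p) * kf al be (dx v p) :=
          mul_le_mul g15 g12 hc1p.le (hc2p.le.trans g15)
        have g19 : (1 + A2) = C * (c2 * c1) := by
          rw [hCd]; field_simp
        calc dx (dx v) p ^ 2 + dx (dy v) p ^ 2
            = dx (dy v) p ^ 2 + dx (dx v) p ^ 2 := add_comm _ _
          _ ≤ (1 + A2) * (dx (dy v) p ^ 2 - dx (dx v) p * dy (dy v) p) := g16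
          _ = C * ((c2 * c1) * (dx (dy v) p ^ 2 - dx (dx v) p * dy (dy v) p)) := by
              rw [g19]; ring
          _ ≤ C * (Pd b0 κ (dy v p) * kf al be (dx v p) *
              (dx (dy v) p ^ 2 - dx (dx v) p * dy (dy v) p)) :=
              mul_le_mul_of_nonneg_left (mul_le_mul_of_nonneg_right g18 g17) hCp.le
    refine hle.trans ?_
    have h4 : ∫ p in S, C * F p = C * ∫ p in S, F p := integral_const_mul _ _
    rw [h4]
    have h5 : ∫ p in S, F p ≤ ∫ p, F p :=
      setIntegral_le_integral hFi (Filter.Eventually.of_forall hF0)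
    have h6 : ∫ p, F p ≤ 4 * K * M * (ε / (C * (4 * K * M + 1))) :=
      hFE.trans (mul_le_mul_of_nonneg_left hηE (by positivity))
    calc C * ∫ p in S, F p ≤ C * (4 * K * M * (ε / (C * (4 * K * M + 1)))) :=
          mul_le_mul_of_nonneg_left (h5.trans h6) hCp.le
      _ = (4 * K * M) / (4 * K * M + 1) * ε := by field_simp
      _ ≤ 1 * ε := by
          apply mul_le_mul_of_nonneg_right _ hε.le
          rw [div_le_one (by positivity)]
          linarith
      _ = ε := one_mul ε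
  -- conclusion
  have hqc : ∀ (g : ℝ × ℝ → ℝ) (h : ℝ), Continuous g → Continuous (qx h g) := by
    intro g h hg
    unfold qx
    have : Continuous (fun p : ℝ × ℝ => g (p.1 + h, p.2)) := hg.comp (by fun_prop)
    exact (this.sub hg).div_const h
  have hint : ∀ (g : ℝ × ℝ → ℝ), Continuous g → IntegrableOn g S := fun g hg =>
    hg.continuousOn.integrableOn_compact hScomp
  have T1 := hT (dx (dx u)) (z0.1 - r) (z0.1 + r) (z0.2 - r) (z0.2 + r) hc11 (by
    intro ε hε
    obtain ⟨h0, hh0, H⟩ := claim ε hε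
    refine ⟨h0, hh0, fun h h1 h2 => le_trans ?_ (H h h1 h2)⟩
    refine setIntegral_mono (hint _ ((hqc _ h hc11).pow 2))
      (hint _ (((hqc _ h hc11).pow 2).add ((hqc _ h hc12).pow 2))) ?_
    intro p
    simp only
    linarith [sq_nonneg (qx h (dx (dy u)) p)])
  have T2 := hT (dx (dy u)) (z0.1 - r) (z0.1 + r) (z0.2 - r) (z0.2 + r) hc12 (by
    intro ε hε
    obtain ⟨h0, hh0, H⟩ := claim ε hε
    refine ⟨h0, hh0, fun h h1 h2 => le_trans ?_ (H h h1 h2)⟩
    refine setIntegral_mono (hint _ ((hqc _ h hc12).pow 2))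
      (hint _ (((hqc _ h hc11).pow 2).add ((hqc _ h hc12).pow 2))) ?_
    intro p
    simp only
    linarith [sq_nonneg (qx h (dx (dx u)) p)])
  refine ⟨r, hr, ?_⟩
  intro x x' y hx hx' hy
  rw [abs_lt] at hx hx' hy
  have m1 : x ∈ Ioo (z0.1 - r) (z0.1 + r) := ⟨by linarith, by linarith⟩
  have m2 : x' ∈ Ioo (z0.1 - r) (z0.1 + r) := ⟨by linarith, by linarith⟩
  have m3 : y ∈ Ioo (z0.2 - r) (z0.2 + r) := ⟨by linarith, by linarith⟩
  exact ⟨T1 x x' y m1 m2 m3, T2 x x' y m1 m2 m3⟩

end Pool.Agent.H629R2.EU
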