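import Pool.Agent.H629R2.EU.Stubs

set_option autoImplicit false

namespace Pool.Agent.H629R2.EU

open MeasureTheory Set Filter Topology

theorem NUL_deriv (f g : ℝ × ℝ → ℝ) (v : ℝ × ℝ) (K : Set (ℝ × ℝ)) (hf : Continuous f)
    (hg : ContDiff ℝ 1 g) (hK : IsCompact K)
    (h0 : ∀ p, p ∉ K → ∀ k : ℝ, |k| ≤ 1 → f p * fderiv ℝ g (p + k • v) v = 0)
    (h1 : ∀ p, p ∉ K → f p * g p = 0) :
    HasDerivAt (fun k : ℝ => ∫ p, f p * g (p + k • v)) (∫ p, f p * fderiv ℝ g p v) 0 := by
  have hg' : Continuous (fderiv ℝ g) := hg.continuous_fderiv one_ne_zero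
  have hgd : Differentiable ℝ g := hg.differentiable one_ne_zero
  have hcont : Continuous (fun q : (ℝ × ℝ) × ℝ => f q.1 * fderiv ℝ g (q.1 + q.2 • v) v) := by
    have h2 : Continuous (fun q : (ℝ × ℝ) × ℝ => fderiv ℝ g (q.1 + q.2 • v)) := by
      apply hg'.comp
      fun_prop
    exact (hf.comp continuous_fst).mul (h2.clm_apply continuous_const)
  obtain ⟨C, hC⟩ := (hK.prod (isCompact_Icc (a := (-1 : ℝ)) (b := 1))).exists_bound_of_continuousOn
    hcont.continuousOn
  have hbound : Integrable (K.indicator (fun _ => C)) (volume : Measure (ℝ × ℝ)) := by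
    rw [integrable_indicator_iff hK.measurableSet]
    exact integrableOn_const hK.measure_lt_top.ne
  have hC' : ∀ (p : ℝ × ℝ) (k : ℝ), |k| ≤ 1 → ‖f p * fderiv ℝ g (p + k • v) v‖ ≤ K.indicator (fun _ => C) p := by
    intro p k hk
    by_cases hp : p ∈ K
    · rw [Set.indicator_of_mem hp]
      exact hC (p, k) ⟨hp, abs_le.mp hk⟩
    · rw [Set.indicator_of_notMem hp, h0 p hp k hk, norm_zero]
  have hint : Integrable (fun p => f p * g (p + (0 : ℝ) • v)) (volume : Measure (ℝ × ℝ)) := by
    have hc : Continuous (fun p => f p * g (p + (0 : ℝ) • v)) := by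
      have : Continuous g := hg.continuous
      fun_prop
    apply hc.integrable_of_hasCompactSupport
    apply HasCompactSupport.intro hK
    intro p hp
    rw [zero_smul, add_zero]
    exact h1 p hp
  have key := hasDerivAt_integral_of_dominated_loc_of_deriv_le
    (μ := (volume : Measure (ℝ × ℝ))) (F := fun (k : ℝ) (p : ℝ × ℝ) => f p * g (p + k • v))
    (F' := fun (k : ℝ) (p : ℝ × ℝ) => f p * fderiv ℝ g (p + k • v) v)
    (x₀ := (0 : ℝ)) (s := Icc (-1) 1) (bound := K.indicator (fun _ => C))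
    (Icc_mem_nhds (by norm_num) (by norm_num))
    (Filter.Eventually.of_forall fun k => by
      have : Continuous (fun p : ℝ × ℝ => f p * g (p + k • v)) := by
        have : Continuous g := hg.continuous
        fun_prop
      exact this.aestronglyMeasurable)
    hint
    (by
      have : Continuous (fun p : ℝ × ℝ => f p * fderiv ℝ g (p + (0 : ℝ) • v) v) :=
        hcont.comp (continuous_id.prodMk continuous_const)
      exact this.aestronglyMeasurable)
    (Filter.Eventually.of_forall fun p k hk => hC' p k (abs_le.mpr hk))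
    hbound
    (Filter.Eventually.of_forall fun p k _ => by
      have h3 : HasDerivAt (fun k : ℝ => p + k • v) v k := by
        have := ((hasDerivAt_id k).smul_const v).const_add p
        simpa using this
      have h4 := (hgd (p + k • v)).hasFDerivAt.comp_hasDerivAt k h3
      exact h4.const_mul (f p))
  have h5 := key.2
  simpa only [zero_smul, add_zero] using h5

theorem NUL_proof : NUL_stmt := by
  intro ψ B hψ hs hB
  have hψc : Continuous ψ := hψ.continuous
  have hBc : Continuous B := hB.continuous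
  have hψ' : Continuous (fderiv ℝ ψ) := hψ.continuous_fderiv one_ne_zero
  have hB' : Continuous (fderiv ℝ B) := hB.continuous_fderiv one_ne_zero
  have hdxψ : Continuous (dx ψ) := hψ'.clm_apply continuous_const
  have hdxB : Continuous (dx B) := hB'.clm_apply continuous_const
  set K : Set (ℝ × ℝ) := (fun q : (ℝ × ℝ) × ℝ => q.1 + q.2 • ((0, 1) : ℝ × ℝ)) ''
    (tsupport ψ ×ˢ Icc (-1) 1) with hKdef
  have hK : IsCompact K := (hs.isCompact.prod isCompact_Icc).image (by fun_prop)
  have hsub : ∀ (p : ℝ × ℝ) (k : ℝ), |k| ≤ 1 → p + k • ((0, -1) : ℝ × ℝ) ∈ tsupport ψ → p ∈ K := by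
    intro p k hk hp
    refine ⟨(p + k • ((0, -1) : ℝ × ℝ), k), ⟨hp, abs_le.mp hk⟩, ?_⟩
    ext
    · simp
    · simp
  have hsub0 : ∀ p, p ∈ tsupport ψ → p ∈ K := by
    intro p hp
    apply hsub p 0 (by norm_num)
    simpa using hp
  have hψ0 : ∀ p, p ∉ tsupport ψ → ψ p = 0 := fun p hp => image_eq_zero_of_notMem_tsupport hp
  have hfψ0 : ∀ p, p ∉ tsupport ψ → fderiv ℝ ψ p = 0 := fun p hp => by
    by_contra h
    exact hp (support_fderiv_subset ℝ h)
  have hdxψ0 : ∀ p, p ∉ K → dx ψ p = 0 := by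
    intro p hp
    unfold dx
    rw [hfψ0 p (fun h => hp (hsub0 p h))]
    rfl
  have d1 := NUL_deriv (dx ψ) B (0, 1) K hdxψ hB hK
    (fun p hp k _ => by rw [hdxψ0 p hp, zero_mul]) (fun p hp => by rw [hdxψ0 p hp, zero_mul])
  have d2 := NUL_deriv (dx B) ψ (0, -1) K hdxB hψ hK
    (fun p hp k hk => by
      rw [hfψ0 _ (fun h => hp (hsub p k hk h))]
      simp)
    (fun p hp => by rw [hψ0 p (fun h => hp (hsub0 p h)), mul_zero])
  have hid : ∀ k : ℝ, ∫ p, dx ψ p * B (p + k • ((0, 1) : ℝ × ℝ)) =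
      - ∫ p, dx B p * ψ (p + k • ((0, -1) : ℝ × ℝ)) := by
    intro k
    set Bk : ℝ × ℝ → ℝ := fun p => B (p + k • ((0, 1) : ℝ × ℝ)) with hBk
    have hBkC : ContDiff ℝ 1 Bk := hB.comp (contDiff_id.add contDiff_const)
    have hBkc : Continuous Bk := hBkC.continuous
    have hBkd : Continuous (fderiv ℝ Bk) := hBkC.continuous_fderiv one_ne_zero
    have hfd : ∀ p, fderiv ℝ Bk p = fderiv ℝ B (p + k • ((0, 1) : ℝ × ℝ)) := by
      intro p
      exact fderiv_comp_add_right (f := B) (k • ((0, 1) : ℝ × ℝ))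
    have hpart := integral_mul_fderiv_eq_neg_fderiv_mul_of_integrable (𝕜 := ℝ)
      (μ := (volume : Measure (ℝ × ℝ))) (f := Bk) (g := ψ) (v := (1, 0))
      (by
        have hc : Continuous (fun p => fderiv ℝ Bk p (1, 0) * ψ p) :=
          (hBkd.clm_apply continuous_const).mul hψc
        exact hc.integrable_of_hasCompactSupport hs.mul_left)
      (by
        have hc : Continuous (fun p => Bk p * fderiv ℝ ψ p (1, 0)) := hBkc.mul hdxψ
        apply hc.integrable_of_hasCompactSupport
        apply HasCompactSupport.intro hs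
        intro p hp
        rw [hfψ0 p hp]
        simp)
      (by
        have hc : Continuous (fun p => Bk p * ψ p) := hBkc.mul hψc
        exact hc.integrable_of_hasCompactSupport hs.mul_left)
      (fun p _ => (hBkC.differentiable one_ne_zero) p)
      (fun p _ => (hψ.differentiable one_ne_zero) p)
    have e1 : ∫ p, dx ψ p * B (p + k • ((0, 1) : ℝ × ℝ)) = ∫ p, Bk p * fderiv ℝ ψ p (1, 0) := by
      refine integral_congr_ae (Filter.Eventually.of_forall fun p => ?_)
      show dx ψ p * Bk p = Bk p * dx ψ p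
      ring
    have e2 : ∫ p, fderiv ℝ Bk p (1, 0) * ψ p =
        ∫ p, dx B p * ψ (p + k • ((0, -1) : ℝ × ℝ)) := by
      have h6 := integral_add_right_eq_self (μ := (volume : Measure (ℝ × ℝ)))
        (fun p => dx B p * ψ (p + k • ((0, -1) : ℝ × ℝ))) (k • ((0, 1) : ℝ × ℝ))
      rw [← h6]
      refine integral_congr_ae (Filter.Eventually.of_forall fun p => ?_)
      show fderiv ℝ Bk p (1, 0) * ψ p = dx B (p + k • ((0, 1) : ℝ × ℝ)) *
        ψ (p + k • ((0, 1) : ℝ × ℝ) + k • ((0, -1) : ℝ × ℝ))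
      have e3 : p + k • ((0, 1) : ℝ × ℝ) + k • ((0, -1) : ℝ × ℝ) = p := by
        ext <;> simp
      rw [e3, hfd]
      rfl
    rw [e1, hpart, e2]
  have d3 : HasDerivAt (fun k : ℝ => ∫ p, dx ψ p * B (p + k • ((0, 1) : ℝ × ℝ)))
      (- ∫ p, dx B p * fderiv ℝ ψ p (0, -1)) 0 := by
    have := d2.neg
    refine this.congr_of_eventuallyEq (Filter.Eventually.of_forall fun k => ?_)
    exact hid k
  have h7 := d1.unique d3
  have h8 : ∀ p, fderiv ℝ ψ p (0, -1) = - dy ψ p := by
    intro p
    unfold dy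
    rw [← map_neg]
    congr 1
    ext <;> simp
  calc ∫ p, dx ψ p * dy B p = - ∫ p, dx B p * fderiv ℝ ψ p (0, -1) := h7
    _ = ∫ p, dy ψ p * dx B p := by
        rw [← integral_neg]
        refine integral_congr_ae (Filter.Eventually.of_forall fun p => ?_)
        show -(dx B p * fderiv ℝ ψ p (0, -1)) = dy ψ p * dx B p
        rw [h8]
        ring

end Pool.Agent.H629R2.EU
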