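import Mathlib
import Pool.Agent.H629R2.EU.Stubs

set_option autoImplicit false

namespace Pool.Agent.H629R2.EU

open MeasureTheory Set

theorem qua_hasDerivAt_x {f : ℝ × ℝ → ℝ} (hf : Differentiable ℝ f) (x y : ℝ) :
    HasDerivAt (fun t => f (t, y)) (dx f (x, y)) x := by
  have h1 : HasDerivAt (fun t : ℝ => ((t, y) : ℝ × ℝ)) (1, 0) x :=
    (hasDerivAt_id x).prodMk (hasDerivAt_const x y)
  have h2 := (hf (x, y)).hasFDerivAt
  exact h2.comp_hasDerivAt x h1

theorem qua_hasDerivAt_y {f : ℝ × ℝ → ℝ} (hf : Differentiable ℝ f) (x y : ℝ) :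
    HasDerivAt (fun t => f (x, t)) (dy f (x, y)) y := by
  have h1 : HasDerivAt (fun t : ℝ => ((x, t) : ℝ × ℝ)) (0, 1) y :=
    (hasDerivAt_const y x).prodMk (hasDerivAt_id y)
  have h2 := (hf (x, y)).hasFDerivAt
  exact h2.comp_hasDerivAt y h1

theorem qua_fderiv_cd {u : ℝ × ℝ → ℝ} (hu : ContDiff ℝ 2 u) : ContDiff ℝ 1 (fderiv ℝ u) :=
  hu.fderiv_right (by norm_num)

theorem qua_dx_cd {u : ℝ × ℝ → ℝ} (hu : ContDiff ℝ 2 u) : ContDiff ℝ 1 (dx u) :=
  (qua_fderiv_cd hu).clm_apply contDiff_const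

theorem qua_dy_cd {u : ℝ × ℝ → ℝ} (hu : ContDiff ℝ 2 u) : ContDiff ℝ 1 (dy u) :=
  (qua_fderiv_cd hu).clm_apply contDiff_const

theorem qua_dxdy {u : ℝ × ℝ → ℝ} (hu : ContDiff ℝ 2 u) (p v w : ℝ × ℝ) :
    fderiv ℝ (fun q => fderiv ℝ u q v) p w = fderiv ℝ (fderiv ℝ u) p w v := by
  have h1 : DifferentiableAt ℝ (fderiv ℝ u) p :=
    (qua_fderiv_cd hu).differentiable (by norm_num) p
  have h2 : HasFDerivAt (fun q => fderiv ℝ u q v)
      ((ContinuousLinearMap.apply ℝ ℝ v).comp (fderiv ℝ (fderiv ℝ u) p)) p :=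
    (ContinuousLinearMap.apply ℝ ℝ v).hasFDerivAt.comp p h1.hasFDerivAt
  rw [h2.fderiv]
  rfl

theorem qua_symm {u : ℝ × ℝ → ℝ} (hu : ContDiff ℝ 2 u) (p : ℝ × ℝ) :
    dy (dx u) p = dx (dy u) p := by
  have h1 : dy (dx u) p = fderiv ℝ (fderiv ℝ u) p (0, 1) (1, 0) := qua_dxdy hu p (1, 0) (0, 1)
  have h2 : dx (dy u) p = fderiv ℝ (fderiv ℝ u) p (1, 0) (0, 1) := qua_dxdy hu p (0, 1) (1, 0)
  rw [h1, h2]
  have h3 : IsSymmSndFDerivAt ℝ u p :=
    hu.contDiffAt.isSymmSndFDerivAt (by simp)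
  exact h3.eq _ _

theorem qua_const {f g : ℝ → ℝ} {f' : ℝ → ℝ} (hf : ∀ x, HasDerivAt f (f' x) x)
    (hg : ∀ x, HasDerivAt g (f' x) x) (x : ℝ) : f x - g x = f 0 - g 0 := by
  have h : ∀ x, HasDerivAt (fun t => f t - g t) 0 x := fun x => by
    have := (hf x).sub (hg x)
    rwa [sub_self] at this
  exact is_const_of_deriv_eq_zero (fun x => (h x).differentiableAt) (fun x => (h x).deriv) x 0

theorem QUA_proof : QUA_stmt := by
  intro u A B C hu hA hB hC
  have hd : Differentiable ℝ u := hu.differentiable (by norm_num)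
  have hdx : Differentiable ℝ (dx u) := (qua_dx_cd hu).differentiable (by norm_num)
  have hdy : Differentiable ℝ (dy u) := (qua_dy_cd hu).differentiable (by norm_num)
  have h1 : ∀ x y, dx u (x, y) = A * x + dx u (0, y) := by
    intro x y
    have := qua_const (f := fun t => dx u (t, y)) (g := fun t => A * t) (f' := fun _ => A)
      (fun x => by have := qua_hasDerivAt_x hdx x y; rwa [hA] at this)
      (fun x => by simpa using (hasDerivAt_id x).const_mul A) x
    linarith
  have h2 : ∀ y, dx u (0, y) = B * y + dx u (0, 0) := by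
    intro y
    have := qua_const (f := fun t => dx u (0, t)) (g := fun t => B * t) (f' := fun _ => B)
      (fun x => by
        have := qua_hasDerivAt_y hdx 0 x
        rwa [qua_symm hu, hB] at this)
      (fun x => by simpa using (hasDerivAt_id x).const_mul B) y
    linarith
  have h3 : ∀ y, dy u (0, y) = C * y + dy u (0, 0) := by
    intro y
    have := qua_const (f := fun t => dy u (0, t)) (g := fun t => C * t) (f' := fun _ => C)
      (fun x => by
        have := qua_hasDerivAt_y hdy 0 x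
        rwa [hC] at this)
      (fun x => by simpa using (hasDerivAt_id x).const_mul C) y
    linarith
  have hpoly : ∀ a b x : ℝ, HasDerivAt (fun t : ℝ => a / 2 * t ^ 2 + b * t) (a * x + b) x := by
    intro a b x
    have h := ((hasDerivAt_pow 2 x).const_mul (a / 2)).add ((hasDerivAt_id x).const_mul b)
    have e : a / 2 * (((2 : ℕ) : ℝ) * x ^ (2 - 1)) + b * 1 = a * x + b := by
      norm_num
      ring
    rw [e] at h
    exact h
  have h4 : ∀ x y, u (x, y) = A / 2 * x ^ 2 + (B * y + dx u (0, 0)) * x + u (0, y) := by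
    intro x y
    have := qua_const (f := fun t => u (t, y))
      (g := fun t => A / 2 * t ^ 2 + (B * y + dx u (0, 0)) * t)
      (f' := fun t => A * t + (B * y + dx u (0, 0)))
      (fun x => by
        have := qua_hasDerivAt_x hd x y
        rwa [h1, h2] at this)
      (fun x => hpoly _ _ x) x
    linarith
  have h5 : ∀ y, u (0, y) = C / 2 * y ^ 2 + dy u (0, 0) * y + u (0, 0) := by
    intro y
    have := qua_const (f := fun t => u (0, t))
      (g := fun t => C / 2 * t ^ 2 + dy u (0, 0) * t)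
      (f' := fun t => C * t + dy u (0, 0))
      (fun x => by
        have := qua_hasDerivAt_y hd 0 x
        rwa [h3] at this)
      (fun x => hpoly _ _ x) y
    linarith
  refine ⟨A / 2, B, C / 2, dx u (0, 0), dy u (0, 0), u (0, 0), fun x y => ?_⟩
  rw [h4, h5]
  ring

end Pool.Agent.H629R2.EU
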