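import Mathlib
import Pool.Agent.H629R2.EU.QUA

set_option autoImplicit false

namespace Pool.Agent.H629R2.EU

open MeasureTheory Set

theorem QUB_proof : QUB_stmt := by
  intro u hS hI
  obtain ⟨hu, h11, h22, hprod⟩ := hS
  have hd : Differentiable ℝ u := hu.differentiable (by norm_num)
  have hdx : Differentiable ℝ (dx u) := (qua_dx_cd hu).differentiable (by norm_num)
  have hdy : Differentiable ℝ (dy u) := (qua_dy_cd hu).differentiable (by norm_num)
  -- dy u (x,y) - dy u (x,0) does not depend on x
  have h1 : ∀ x y, dy u (x, y) - dy u (x, 0) = dy u (0, y) - dy u (0, 0) := by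
    intro x y
    exact qua_const (f := fun t => dy u (t, y)) (g := fun t => dy u (t, 0))
      (f' := fun t => dx (dy u) (t, 0))
      (fun x => by
        have := qua_hasDerivAt_x hdy x y
        rwa [(hI x y 0).2] at this)
      (fun x => qua_hasDerivAt_x hdy x 0) x
  have h2 : ∀ x y, dy (dy u) (x, y) = dy (dy u) (0, y) := by
    intro x y
    have ha := qua_hasDerivAt_y hdy x y
    have hb := qua_hasDerivAt_y hdy 0 y
    have hc : (fun t => dy u (x, t)) = fun t => dy u (0, t) + (dy u (x, 0) - dy u (0, 0)) := by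
      funext t
      have := h1 x t
      linarith
    rw [hc] at ha
    have hb' := hb.add_const (dy u (x, 0) - dy u (0, 0))
    exact ha.unique hb'
  have h3 : ∀ x y, dx (dx u) (x, y) = dx (dx u) (0, 0) := by
    intro x y
    have ha := hprod (x, y)
    have hb := hprod (0, y)
    rw [h2 x y] at ha
    have hne : dy (dy u) (0, y) ≠ 0 := by
      intro h0
      rw [h0, mul_zero] at hb
      exact zero_ne_one hb
    have : dx (dx u) (x, y) = dx (dx u) (0, y) := mul_right_cancel₀ hne (ha.trans hb.symm)
    rw [this, (hI 0 y 0).1]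
  have h4 : ∀ x y, dx u (x, y) = dx (dx u) (0, 0) * x + dx u (0, y) := by
    intro x y
    have := qua_const (f := fun t => dx u (t, y)) (g := fun t => dx (dx u) (0, 0) * t)
      (f' := fun _ => dx (dx u) (0, 0))
      (fun x => by have := qua_hasDerivAt_x hdx x y; rwa [h3] at this)
      (fun x => by simpa using (hasDerivAt_id x).const_mul (dx (dx u) (0, 0))) x
    linarith
  have h5 : ∀ x y, dy (dx u) (x, y) = dy (dx u) (0, y) := by
    intro x y
    have ha := qua_hasDerivAt_y hdx x y
    have hb := qua_hasDerivAt_y hdx 0 y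
    have hc : (fun t => dx u (x, t)) = fun t => dx u (0, t) + dx (dx u) (0, 0) * x := by
      funext t
      have := h4 x t
      linarith
    rw [hc] at ha
    have hb' := hb.add_const (dx (dx u) (0, 0) * x)
    exact ha.unique hb'
  have h6 : ∀ x y, dx (dy u) (x, y) = dx (dy u) (0, 0) := by
    intro x y
    rw [← qua_symm hu, h5, qua_symm hu, (hI 0 y 0).2]
  have h7 : ∀ x y, dy (dy u) (x, y) = dy (dy u) (0, 0) := by
    intro x y
    have ha := hprod (x, y)
    have hb := hprod (0, 0)
    rw [h3 x y] at ha
    have hne : dx (dx u) (0, 0) ≠ 0 := by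
      intro h0
      rw [h0, zero_mul] at hb
      exact zero_ne_one hb
    exact mul_left_cancel₀ hne (ha.trans hb.symm)
  exact QUA_proof u (dx (dx u) (0, 0)) (dx (dy u) (0, 0)) (dy (dy u) (0, 0)) hu
    (fun p => h3 p.1 p.2) (fun p => h6 p.1 p.2) (fun p => h7 p.1 p.2)

end Pool.Agent.H629R2.EU
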