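import Pool.Agent.H629R2.EU.Stubs

set_option autoImplicit false

/-! SWA: exchanging the variables. -/

namespace Pool.Agent.H629R2.EU

open MeasureTheory Set

/-- the swap -/
noncomputable def SWA_S : (ℝ × ℝ) ≃L[ℝ] (ℝ × ℝ) := ContinuousLinearEquiv.prodComm ℝ ℝ ℝ

theorem SWA_dx (f : ℝ × ℝ → ℝ) : dx (fun q => f (q.2, q.1)) = fun p => dy f (p.2, p.1) := by
  funext p
  have h : (fun q : ℝ × ℝ => f (q.2, q.1)) = f ∘ SWA_S := rfl
  unfold dx dy
  rw [h, ContinuousLinearEquiv.comp_right_fderiv]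
  rfl

theorem SWA_dy (f : ℝ × ℝ → ℝ) : dy (fun q => f (q.2, q.1)) = fun p => dx f (p.2, p.1) := by
  funext p
  have h : (fun q : ℝ × ℝ => f (q.2, q.1)) = f ∘ SWA_S := rfl
  unfold dx dy
  rw [h, ContinuousLinearEquiv.comp_right_fderiv]
  rfl

theorem SWA_symm (u : ℝ × ℝ → ℝ) (hu : ContDiff ℝ 2 u) (p : ℝ × ℝ) :
    dy (dx u) p = dx (dy u) p := by
  have h1 : ContDiff ℝ 1 (fderiv ℝ u) := hu.fderiv_right (by norm_num)
  have hd : DifferentiableAt ℝ (fderiv ℝ u) p := (h1.differentiable (by norm_num)) p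
  have h2 : ∀ v w : ℝ × ℝ, fderiv ℝ (fun q => fderiv ℝ u q v) p w =
      fderiv ℝ (fderiv ℝ u) p w v := by
    intro v w
    rw [fderiv_clm_apply hd (differentiableAt_const v)]
    simp
  have h3 : IsSymmSndFDerivAt ℝ u p :=
    hu.contDiffAt.isSymmSndFDerivAt (by simp)
  show fderiv ℝ (fun q => fderiv ℝ u q (1, 0)) p (0, 1) =
    fderiv ℝ (fun q => fderiv ℝ u q (0, 1)) p (1, 0)
  rw [h2, h2]
  exact h3 _ _

theorem SWA_proof : SWA_stmt := by
  intro u hu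
  obtain ⟨h1, h2, h3, h4⟩ := hu
  have a1 : ∀ p : ℝ × ℝ, dx (dx (fun q => u (q.2, q.1))) p = dy (dy u) (p.2, p.1) := by
    intro p
    rw [SWA_dx u, SWA_dx (dy u)]
  have a2 : ∀ p : ℝ × ℝ, dy (dy (fun q => u (q.2, q.1))) p = dx (dx u) (p.2, p.1) := by
    intro p
    rw [SWA_dy u, SWA_dy (dx u)]
  refine ⟨⟨?_, ?_, ?_, ?_⟩, a1, a2, ?_⟩
  · exact h1.comp SWA_S.contDiff
  · intro p
    rw [a1]
    exact h3 _
  · intro p
    rw [a2]
    exact h2 _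
  · intro p
    rw [a1, a2, mul_comm]
    exact h4 _
  · intro p
    rw [SWA_dy u, SWA_dx (dx u)]
    exact SWA_symm u h1 _

end Pool.Agent.H629R2.EU
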