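import Mathlib
import Pool.Agent.H629R2.EU.Stubs

set_option autoImplicit false

namespace Pool.Agent.H629R2.EU

open MeasureTheory Set

lemma tel_cont_qx (f : ℝ × ℝ → ℝ) (hf : Continuous f) (h : ℝ) : Continuous (qx h f) := by
  unfold qx
  exact ((hf.comp (by fun_prop)).sub hf).div_const h

/-- the translated energy -/
lemma tel_translate (f : ℝ × ℝ → ℝ) (a b c d : ℝ) (hf : Continuous f) (h v : ℝ)
    (S : Set (ℝ × ℝ)) (hS : ∀ p ∈ S, p + (v, 0) ∈ Icc a b ×ˢ Icc c d) :
    ∫ p in S, (qx h f (p + (v, 0))) ^ 2 ≤ ∫ p in Icc a b ×ˢ Icc c d, (qx h f p) ^ 2 := by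
  have hmp : MeasurePreserving (fun p : ℝ × ℝ => p + (v, 0)) volume volume :=
    measurePreserving_add_right volume (v, (0 : ℝ))
  have hme : MeasurableEmbedding (fun p : ℝ × ℝ => p + (v, 0)) :=
    measurableEmbedding_addRight (v, (0 : ℝ))
  have hc : Continuous fun p => (qx h f p) ^ 2 := (tel_cont_qx f hf h).pow 2
  have h1 := hmp.setIntegral_preimage_emb hme (fun p => (qx h f p) ^ 2) (Icc a b ×ˢ Icc c d)
  rw [← h1]
  have hint : IntegrableOn (fun p => (qx h f p) ^ 2) (Icc a b ×ˢ Icc c d) volume :=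
    hc.continuousOn.integrableOn_compact (isCompact_Icc.prod isCompact_Icc)
  have h2 : IntegrableOn ((fun p => (qx h f p) ^ 2) ∘ fun p : ℝ × ℝ => p + (v, 0))
      ((fun p : ℝ × ℝ => p + (v, 0)) ⁻¹' (Icc a b ×ˢ Icc c d)) volume :=
    (hmp.integrableOn_comp_preimage hme).mpr hint
  refine setIntegral_mono_set h2 (Filter.Eventually.of_forall fun p => sq_nonneg _) ?_
  exact (show S ⊆ (fun p : ℝ × ℝ => p + (v, 0)) ⁻¹' (Icc a b ×ˢ Icc c d) from hS).eventuallyLE

theorem tel_aux (f : ℝ × ℝ → ℝ) (a b c d : ℝ) (hf : Continuous f)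
    (hsm : ∀ ε : ℝ, 0 < ε → ∃ h0 : ℝ, 0 < h0 ∧ ∀ h : ℝ, 0 < h → h < h0 →
      ∫ p in Icc a b ×ˢ Icc c d, (qx h f p) ^ 2 ≤ ε)
    (x x' y : ℝ) (hx : x ∈ Ioo a b) (hx' : x' ∈ Ioo a b) (hy : y ∈ Ioo c d) (hxx : x < x') :
    f (x, y) = f (x', y) := by
  set s : ℝ := x' - x with hs
  have hspos : 0 < s := by rw [hs]; linarith
  obtain ⟨r, hr, hr1, hr2, hr3, hr4⟩ : ∃ r : ℝ, 0 < r ∧ a ≤ x - r ∧ x' + r ≤ b ∧ c ≤ y - r ∧
      y + r ≤ d := by
    refine ⟨min (min (x - a) (b - x')) (min (y - c) (d - y)), ?_, ?_, ?_, ?_, ?_⟩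
    · refine lt_min (lt_min ?_ ?_) (lt_min ?_ ?_)
      · linarith [hx.1]
      · linarith [hx'.2]
      · linarith [hy.1]
      · linarith [hy.2]
    · have := (min_le_left (min (x - a) (b - x')) (min (y - c) (d - y))).trans (min_le_left _ _)
      linarith
    · have := (min_le_left (min (x - a) (b - x')) (min (y - c) (d - y))).trans (min_le_right _ _)
      linarith
    · have := (min_le_right (min (x - a) (b - x')) (min (y - c) (d - y))).trans (min_le_left _ _)
      linarith
    · have := (min_le_right (min (x - a) (b - x')) (min (y - c) (d - y))).trans (min_le_right _ _)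
      linarith
  set S : Set (ℝ × ℝ) := Ioo (x - r) (x + r) ×ˢ Ioo (y - r) (y + r) with hSd
  have hSo : IsOpen S := isOpen_Ioo.prod isOpen_Ioo
  have hSsub : S ⊆ Icc (x - r) (x + r) ×ˢ Icc (y - r) (y + r) :=
    prod_mono Ioo_subset_Icc_self Ioo_subset_Icc_self
  have hintS : ∀ g : ℝ × ℝ → ℝ, Continuous g → IntegrableOn g S volume := fun g hg =>
    (hg.continuousOn.integrableOn_compact (isCompact_Icc.prod isCompact_Icc)).mono_set hSsub
  set G : ℝ × ℝ → ℝ := fun p => (f (p + (s, 0)) - f p) ^ 2 with hG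
  have hGc : Continuous G := ((hf.comp (by fun_prop)).sub hf).pow 2
  have hG0 : ∀ p, 0 ≤ G p := fun p => sq_nonneg _
  have hbound : ∀ ε : ℝ, 0 < ε → ∫ p in S, G p ≤ s ^ 2 * ε := by
    intro ε hε
    obtain ⟨h0, hh0, hh⟩ := hsm ε hε
    obtain ⟨n, hn⟩ := exists_nat_gt (s / h0)
    have hn0 : (0 : ℝ) < n := (div_pos hspos hh0).trans hn
    set h : ℝ := s / n with hh'
    have hhpos : 0 < h := div_pos hspos hn0
    have hnh : (n : ℝ) * h = s := by rw [hh']; field_simp
    have hlt : h < h0 := by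
      rw [hh', div_lt_iff₀ hn0]
      rw [div_lt_iff₀ hh0] at hn
      linarith
    have hE := hh h hhpos hlt
    -- pointwise bound
    have hpt : ∀ p : ℝ × ℝ, G p ≤ ∑ j ∈ Finset.range n,
        (n * h ^ 2) * (qx h f (p + ((j : ℝ) * h, 0))) ^ 2 := by
      intro p
      have h1 : f (p + (s, 0)) - f p =
          ∑ j ∈ Finset.range n, h * qx h f (p + ((j : ℝ) * h, 0)) := by
        have h2 : ∀ j ∈ Finset.range n, h * qx h f (p + ((j : ℝ) * h, 0)) =
            (fun j : ℕ => f (p + ((j : ℝ) * h, 0))) (j + 1) -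
              (fun j : ℕ => f (p + ((j : ℝ) * h, 0))) j := by
          intro j _
          show h * ((f ((p + ((j : ℝ) * h, 0)).1 + h, (p + ((j : ℝ) * h, 0)).2) -
            f (p + ((j : ℝ) * h, 0))) / h) = f (p + (((j + 1 : ℕ) : ℝ) * h, 0)) -
              f (p + ((j : ℝ) * h, 0))
          rw [mul_div_cancel₀ _ hhpos.ne']
          congr 2
          ext
          · show p.1 + (j : ℝ) * h + h = p.1 + ((j + 1 : ℕ) : ℝ) * h
            push_cast
            ring
          · rfl
        rw [Finset.sum_congr rfl h2]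
        refine Eq.trans ?_
          (Finset.sum_range_sub (fun j : ℕ => f (p + ((j : ℝ) * h, 0))) n).symm
        show _ = f (p + ((n : ℝ) * h, 0)) - f (p + (((0 : ℕ) : ℝ) * h, 0))
        rw [hnh, Nat.cast_zero, zero_mul]
        congr 2
        ext <;> simp
      show (f (p + (s, 0)) - f p) ^ 2 ≤ _
      rw [h1]
      refine (sq_sum_le_card_mul_sum_sq).trans ?_
      rw [Finset.card_range, Finset.mul_sum]
      refine Finset.sum_le_sum fun j _ => ?_
      rw [mul_pow]
      exact le_of_eq (by ring)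
    have hcj : ∀ j : ℕ, Continuous fun p : ℝ × ℝ =>
        (n * h ^ 2) * (qx h f (p + ((j : ℝ) * h, 0))) ^ 2 := fun j =>
      continuous_const.mul (((tel_cont_qx f hf h).comp (by fun_prop)).pow 2)
    calc ∫ p in S, G p ≤ ∫ p in S, ∑ j ∈ Finset.range n,
          (n * h ^ 2) * (qx h f (p + ((j : ℝ) * h, 0))) ^ 2 := by
          refine setIntegral_mono (hintS _ hGc) (hintS _ ?_) hpt
          exact continuous_finsetSum _ fun j _ => hcj j
      _ = ∑ j ∈ Finset.range n, ∫ p in S,
          (n * h ^ 2) * (qx h f (p + ((j : ℝ) * h, 0))) ^ 2 :=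
          integral_finsetSum _ fun j _ => hintS _ (hcj j)
      _ ≤ ∑ j ∈ Finset.range n, (n * h ^ 2) * ε := by
          refine Finset.sum_le_sum fun j hj => ?_
          rw [integral_const_mul]
          refine mul_le_mul_of_nonneg_left ?_ (by positivity)
          refine (tel_translate f a b c d hf h ((j : ℝ) * h) S ?_).trans hE
          intro p hp
          have hj1 : (j : ℝ) ≤ n := by exact_mod_cast (Finset.mem_range.mp hj).le
          have hj2 : (j : ℝ) * h ≤ s := by rw [← hnh]; exact mul_le_mul_of_nonneg_right hj1 hhpos.le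
          have hj3 : 0 ≤ (j : ℝ) * h := by positivity
          have hp1 := hp.1
          have hp2 := hp.2
          refine ⟨⟨?_, ?_⟩, ⟨?_, ?_⟩⟩
          · show a ≤ p.1 + (j : ℝ) * h
            linarith [hp1.1]
          · show p.1 + (j : ℝ) * h ≤ b
            have : x + s = x' := by rw [hs]; ring
            linarith [hp1.2]
          · show c ≤ p.2 + 0
            linarith [hp2.1]
          · show p.2 + 0 ≤ d
            linarith [hp2.2]
      _ = s ^ 2 * ε := by
          rw [Finset.sum_const, Finset.card_range, nsmul_eq_mul, ← hnh]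
          ring
  have hzero : ∫ p in S, G p = 0 := by
    refine le_antisymm ?_ (setIntegral_nonneg hSo.measurableSet fun p _ => hG0 p)
    refine le_of_forall_pos_le_add fun ε hε => ?_
    have := hbound (ε / s ^ 2) (by positivity)
    rw [mul_div_cancel₀ _ (by positivity)] at this
    linarith
  have hae : G =ᵐ[volume.restrict S] 0 :=
    (setIntegral_eq_zero_iff_of_nonneg_ae (Filter.Eventually.of_forall hG0)
      (hintS G hGc)).mp hzero
  have heq : EqOn G 0 S :=
    Measure.eqOn_open_of_ae_eq hae hSo hGc.continuousOn continuous_zero.continuousOn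
  have hxy : (x, y) ∈ S := ⟨⟨by linarith, by linarith⟩, ⟨by linarith, by linarith⟩⟩
  have h1 : (f ((x, y) + (s, 0)) - f (x, y)) ^ 2 = 0 := heq hxy
  have h2 : f ((x, y) + (s, 0)) - f (x, y) = 0 := by
    rcases pow_eq_zero_iff (two_ne_zero) |>.mp h1 with h
    exact h
  have h3 : ((x, y) : ℝ × ℝ) + (s, 0) = (x', y) := by
    ext
    · show x + s = x'
      rw [hs]; ring
    · show y + 0 = y
      ring
  rw [h3] at h2
  linarith

theorem TEL_proof : TEL_stmt := by
  intro f a b c d hf hsm x x' y hx hx' hy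
  rcases lt_trichotomy x x' with h | h | h
  · exact tel_aux f a b c d hf hsm x x' y hx hx' hy h
  · rw [h]
  · exact (tel_aux f a b c d hf hsm x' x y hx' hx hy h).symm

theorem TELY_proof : TELY_stmt := by
  intro f a b c d hf hsm x y y' hx hy hy'
  have h1 : ∀ ε : ℝ, 0 < ε → ∃ h0 : ℝ, 0 < h0 ∧ ∀ h : ℝ, 0 < h → h < h0 →
      ∫ p in Icc c d ×ˢ Icc a b, (qx h (fun q => f (q.2, q.1)) p) ^ 2 ≤ ε := by
    intro ε hε
    obtain ⟨h0, hh0, hh⟩ := hsm ε hε
    refine ⟨h0, hh0, fun h hp hl => ?_⟩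
    have h2 := hh h hp hl
    have hmp : MeasurePreserving (Prod.swap : ℝ × ℝ → ℝ × ℝ) volume volume :=
      Measure.measurePreserving_swap
    have hme : MeasurableEmbedding (Prod.swap : ℝ × ℝ → ℝ × ℝ) :=
      MeasurableEquiv.prodComm.measurableEmbedding
    have h3 := hmp.setIntegral_preimage_emb hme (fun p => (qy h f p) ^ 2) (Icc a b ×ˢ Icc c d)
    rw [← h3, Set.preimage_swap_prod] at h2
    exact h2
  exact TEL_proof (fun q => f (q.2, q.1)) c d a b (hf.comp (by fun_prop)) h1 y y' x hy hy' hx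

end Pool.Agent.H629R2.EU
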