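import Mathlib
import Pool.Agent.H629R2.EU.Stubs

set_option autoImplicit false

namespace Pool.Agent.H629R2.EU

open MeasureTheory Set

theorem UNC_proof : UNC_stmt := by
  intro g R ε hg hε
  set K : Set (ℝ × ℝ) := Icc (-(R + 1)) (R + 1) ×ˢ Icc (-(R + 1)) (R + 1) with hK
  have hKc : IsCompact K := isCompact_Icc.prod isCompact_Icc
  have huc := hKc.uniformContinuousOn_of_continuous hg.continuousOn
  rw [Metric.uniformContinuousOn_iff] at huc
  obtain ⟨δ, hδ, hU⟩ := huc ε hε
  refine ⟨min 1 δ, lt_min one_pos hδ, fun h h0 hh p hp1 hp2 => ?_⟩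
  have hh1 : h < 1 := hh.trans_le (min_le_left _ _)
  have hh2 : h < δ := hh.trans_le (min_le_right _ _)
  rw [abs_le] at hp1 hp2
  have hpK : p ∈ K := ⟨⟨by linarith, by linarith⟩, ⟨by linarith, by linarith⟩⟩
  have hpx : ((p.1 + h, p.2) : ℝ × ℝ) ∈ K :=
    ⟨⟨by simp only; linarith, by simp only; linarith⟩, ⟨by simp only; linarith, by simp only; linarith⟩⟩
  have hpy : ((p.1, p.2 + h) : ℝ × ℝ) ∈ K :=
    ⟨⟨by simp only; linarith, by simp only; linarith⟩, ⟨by simp only; linarith, by simp only; linarith⟩⟩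
  constructor
  · have h1 := hU _ hpx _ hpK (by
      rw [Prod.dist_eq]
      simp only [Real.dist_eq, add_sub_cancel_left, sub_self, abs_zero, abs_of_pos h0]
      exact max_lt hh2 hδ)
    rw [Real.dist_eq] at h1
    exact h1.le
  · have h1 := hU _ hpy _ hpK (by
      rw [Prod.dist_eq]
      simp only [Real.dist_eq, add_sub_cancel_left, sub_self, abs_zero, abs_of_pos h0]
      exact max_lt hδ hh2)
    rw [Real.dist_eq] at h1
    exact h1.le

theorem uni_hasDerivAt_x {f : ℝ × ℝ → ℝ} (hf : Differentiable ℝ f) (x y : ℝ) :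
    HasDerivAt (fun t => f (t, y)) (dx f (x, y)) x := by
  have h1 : HasDerivAt (fun t : ℝ => ((t, y) : ℝ × ℝ)) (1, 0) x :=
    (hasDerivAt_id x).prodMk (hasDerivAt_const x y)
  have h2 := (hf (x, y)).hasFDerivAt
  exact h2.comp_hasDerivAt x h1

theorem uni_hasDerivAt_y {f : ℝ × ℝ → ℝ} (hf : Differentiable ℝ f) (x y : ℝ) :
    HasDerivAt (fun t => f (x, t)) (dy f (x, y)) y := by
  have h1 : HasDerivAt (fun t : ℝ => ((x, t) : ℝ × ℝ)) (0, 1) y :=
    (hasDerivAt_const y x).prodMk (hasDerivAt_id y)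
  have h2 := (hf (x, y)).hasFDerivAt
  exact h2.comp_hasDerivAt y h1

theorem UNI_proof : UNI_stmt := by
  intro g R ε hg hε
  have hd : Differentiable ℝ g := hg.differentiable (by norm_num)
  have hfc : Continuous (fderiv ℝ g) := hg.continuous_fderiv (by norm_num)
  have hcx : Continuous (dx g) := hfc.clm_apply continuous_const
  have hcy : Continuous (dy g) := hfc.clm_apply continuous_const
  obtain ⟨h0, hh0, H0⟩ := UNC_proof g R ε hg.continuous hε
  obtain ⟨h1, hh1, H1⟩ := UNC_proof (dx g) R ε hcx hε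
  obtain ⟨h2, hh2, H2⟩ := UNC_proof (dy g) R ε hcy hε
  refine ⟨min h0 (min h1 h2), lt_min hh0 (lt_min hh1 hh2), fun h hpos hlt p hp1 hp2 => ?_⟩
  have l0 : h < h0 := hlt.trans_le (min_le_left _ _)
  have l1 : h < h1 := hlt.trans_le ((min_le_right _ _).trans (min_le_left _ _))
  have l2 : h < h2 := hlt.trans_le ((min_le_right _ _).trans (min_le_right _ _))
  refine ⟨?_, ?_, (H0 h hpos l0 p hp1 hp2).1, (H0 h hpos l0 p hp1 hp2).2⟩
  · obtain ⟨c, hc, hc2⟩ := exists_hasDerivAt_eq_slope (fun t => g (t, p.2))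
      (fun t => dx g (t, p.2)) (show p.1 < p.1 + h by linarith)
      (by
        apply Continuous.continuousOn
        exact hg.continuous.comp (by fun_prop))
      (fun t _ => uni_hasDerivAt_x hd t p.2)
    have hq : qx h g p = dx g (c, p.2) := by
      rw [hc2]
      unfold qx
      simp
    have hcpos : 0 < c - p.1 := by linarith [hc.1]
    have hclt : c - p.1 < h1 := by linarith [hc.2]
    have := (H1 (c - p.1) hcpos hclt p hp1 hp2).1
    rw [hq]
    have e : p.1 + (c - p.1) = c := by ring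
    rwa [e] at this
  · obtain ⟨c, hc, hc2⟩ := exists_hasDerivAt_eq_slope (fun t => g (p.1, t))
      (fun t => dy g (p.1, t)) (show p.2 < p.2 + h by linarith)
      (by
        apply Continuous.continuousOn
        exact hg.continuous.comp (by fun_prop))
      (fun t _ => uni_hasDerivAt_y hd p.1 t)
    have hq : qy h g p = dy g (p.1, c) := by
      rw [hc2]
      unfold qy
      simp
    have hcpos : 0 < c - p.2 := by linarith [hc.1]
    have hclt : c - p.2 < h2 := by linarith [hc.2]
    have := (H2 (c - p.2) hcpos hclt p hp1 hp2).2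
    rw [hq]
    have e : p.2 + (c - p.2) = c := by ring
    rwa [e] at this

end Pool.Agent.H629R2.EU
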